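import Pool.Agent.Helper80_UR.Four

/-! # FOUR1 (helper80) -/

namespace Pool.Agent.UR.H80

open Pool.Agent.Helper21_UR Filter Topology Complex MeasureTheory intervalIntegral

theorem Cp_meas {q : ℂ} (hq : ‖q‖ < 1) (ρ : ℝ) (hρ : 0 < ρ) (h1 : ρ * ‖q‖ < 1)
    (h2 : ρ⁻¹ * ‖q‖ < 1) :
    StronglyMeasurable (fun φ : ℝ => Cp q ((ρ : ℂ) * cexp (I * φ))) ∧
    ∃ B : ℝ, 0 < B ∧ ∀ φ : ℝ, ‖Cp q ((ρ : ℂ) * cexp (I * φ))‖ ≤ B := by
  have ht : ∀ φ : ℝ, Tendsto (fun c => Cf q ((ρ : ℂ) * cexp (I * φ)) c) atTop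
      (𝓝 (Cp q ((ρ : ℂ) * cexp (I * φ)))) := fun φ =>
    Cf_tend hq (by rw [norm_circ ρ hρ]; exact h1) (by rw [norm_inv, norm_circ ρ hρ]; exact h2)
  refine ⟨?_, ?_⟩
  · apply stronglyMeasurable_of_tendsto atTop
      (f := fun c (φ : ℝ) => Cf q ((ρ : ℂ) * cexp (I * φ)) c)
    · intro c
      have h := Cf_cont hq ρ hρ h1 h2 c 0
      simp only [pow_zero, inv_one, one_mul] at h
      exact h.stronglyMeasurable
    · exact tendsto_pi_nhds.2 ht
  · obtain ⟨B, hB, hBb⟩ := bdd_of_tend (Cf_tend (q := (‖q‖ : ℂ)) (ζ := (ρ : ℂ))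
      (by rw [Complex.norm_real, norm_norm]; exact hq)
      (by rw [Complex.norm_real, Complex.norm_real, norm_norm, Real.norm_of_nonneg hρ.le]
          exact h1)
      (by rw [norm_inv, Complex.norm_real, Complex.norm_real, norm_norm,
            Real.norm_of_nonneg hρ.le]
          exact h2))
    refine ⟨B, hB, fun φ => ?_⟩
    apply le_of_tendsto' (ht φ).norm
    intro c
    exact (Cf_norm hq ρ hρ (norm_circ ρ hρ φ) h1 h2 c).trans (hBb _)

theorem four1 (hC : YcoefStatement) : Four1Statement := by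
  intro t c m ht
  set q := cexp (-t) with hqd
  have hq0 : q ≠ 0 := exp_ne_zero _
  have hqn : ‖q‖ = Real.exp (-t.re) := by rw [hqd, Complex.norm_exp, neg_re]
  have hq : ‖q‖ < 1 := by
    rw [hqn, Real.exp_lt_one_iff]
    linarith
  set ρ := Real.exp (1 / 2 * t.re) with hρd
  have hρ1 : 1 ≤ ρ := Real.one_le_exp (by positivity)
  have hρ : 0 < ρ := Real.exp_pos _
  have h1 : ρ * ‖q‖ < 1 := by
    rw [hqn, hρd, ← Real.exp_add, Real.exp_lt_one_iff]
    linarith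
  have h2 : ρ⁻¹ * ‖q‖ < 1 := by
    rw [hqn, hρd, ← Real.exp_neg, ← Real.exp_add, Real.exp_lt_one_iff]
    linarith
  obtain ⟨hm, B, hB, hBb⟩ := Cp_meas hq ρ hρ h1 h2
  have key := four_key ρ hρ1 t ht c m 0 (fun φ : ℝ => Cp q ((ρ : ℂ) * cexp (I * φ))) B hm hBb
    (by
      intro μ
      have h3 : ‖q‖ < ρ := by
        rw [hqn, hρd]
        apply Real.exp_lt_exp.2
        linarith
      have h4 : ρ < ‖q‖⁻¹ := by
        rw [hqn, hρd, ← Real.exp_neg]
        apply Real.exp_lt_exp.2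
        linarith
      rw [← hqd]
      have := hC q ρ μ hq0 hq h3 h4
      rw [this]
      congr 1
      apply tsum_congr
      intro k
      unfold vk
      rw [Nat.add_zero, pow_add]
      ring_nf)
  rw [← hqd] at key
  simp only [Nat.add_zero] at key
  rw [← key]
  congr 1
  set G : ℂ → ℂ := fun ζ => Cp q ζ * ∑' x, al q c x * (ζ ^ (ee m x))⁻¹ with hG
  have e1 : ∀ φ : ℝ, FF (1 / 2) t c m φ
      = (fun ψ : ℝ => G ((ρ : ℂ) * cexp (I * ψ))) (φ + 1 / 2 * t.im) := by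
    intro φ
    rw [FF_eq (1 / 2) (by norm_num) t ht c m φ]
  simp only [e1]
  rw [per_shift (fun ψ : ℝ => G ((ρ : ℂ) * cexp (I * ψ))) (circ_per ρ G)]

end Pool.Agent.UR.H80
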