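import Pool.Agent.Helper80_UR.Four1

/-! # FOUR2 (helper80) -/

namespace Pool.Agent.UR.H80

open Pool.Agent.Helper21_UR Filter Topology Complex MeasureTheory intervalIntegral

theorem mult_inv_of' {u : ℕ → ℂ} (hu : Summable fun j => ‖u j‖) (δ : ℝ) (hδ : 0 < δ)
    (hδu : ∀ j, δ ≤ ‖1 - u j‖) : Multipliable fun j => (1 - u j)⁻¹ := by
  have hne : ∀ j, 1 - u j ≠ 0 := by
    intro j h
    have := hδu j
    rw [h, norm_zero] at this
    linarith
  have h1 : ∀ j, (1 - u j)⁻¹ = 1 + u j / (1 - u j) := by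
    intro j
    have := hne j
    field_simp
    ring
  simp only [h1]
  apply multipliable_one_add_of_summable
  apply Summable.of_nonneg_of_le (fun _ => norm_nonneg _) _ (hu.mul_right δ⁻¹)
  intro j
  rw [norm_div, div_eq_mul_inv]
  apply mul_le_mul_of_nonneg_left _ (norm_nonneg _)
  exact inv_anti₀ hδ (hδu j)

section outer

variable {q ζ : ℂ}

theorem out_ne (hq : ‖q‖ < 1) (_h1 : 1 < ‖ζ‖ * ‖q‖) (_h2 : ‖ζ‖ * ‖q‖ * ‖q‖ < 1) (j : ℕ) :
    min (‖ζ‖ * ‖q‖ - 1) (1 - ‖ζ‖ * ‖q‖ * ‖q‖) ≤ ‖1 - ζ * q ^ (j + 1)‖ := by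
  cases j with
  | zero =>
    refine (min_le_left _ _).trans ?_
    have h := norm_sub_norm_le (ζ * q ^ (0 + 1)) 1
    rw [norm_one, zero_add, pow_one, norm_mul, norm_sub_rev] at h
    rw [zero_add, pow_one]
    exact h
  | succ j =>
    refine (min_le_right _ _).trans ?_
    have h := norm_sub_norm_le (1 : ℂ) (ζ * q ^ (j + 1 + 1))
    rw [norm_one, norm_mul, norm_pow] at h
    refine le_trans ?_ h
    have h3 : ‖q‖ ^ j ≤ 1 := pow_le_one₀ (norm_nonneg _) hq.le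
    have h4 : ‖ζ‖ * ‖q‖ ^ (j + 1 + 1) = ‖ζ‖ * ‖q‖ * ‖q‖ * ‖q‖ ^ j := by ring
    rw [h4]
    have h5 : 0 ≤ ‖ζ‖ * ‖q‖ * ‖q‖ := by positivity
    nlinarith

theorem out_ne0 (hq : ‖q‖ < 1) (h1 : 1 < ‖ζ‖ * ‖q‖) (h2 : ‖ζ‖ * ‖q‖ * ‖q‖ < 1) (j : ℕ) :
    1 - ζ * q ^ (j + 1) ≠ 0 := by
  intro h
  have h3 := out_ne hq h1 h2 j
  rw [h, norm_zero] at h3
  have : 0 < min (‖ζ‖ * ‖q‖ - 1) (1 - ‖ζ‖ * ‖q‖ * ‖q‖) := lt_min (by linarith) (by linarith)
  linarith

theorem in_ne0 (_hq0 : q ≠ 0) (hq : ‖q‖ < 1) (h1 : 1 < ‖ζ‖ * ‖q‖) (j : ℕ) :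
    1 - ζ⁻¹ * q ^ j ≠ 0 := by
  have hζ : 1 < ‖ζ‖ := by
    by_contra h
    push Not at h
    have := norm_nonneg q
    nlinarith
  intro h
  have h2 : ζ⁻¹ * q ^ j = 1 := (sub_eq_zero.1 h).symm
  have h3 : ‖ζ⁻¹ * q ^ j‖ < 1 := by
    rw [norm_mul, norm_inv, norm_pow]
    have h4 : ‖q‖ ^ j ≤ 1 := pow_le_one₀ (norm_nonneg _) hq.le
    have h5 : ‖ζ‖⁻¹ < 1 := inv_lt_one_of_one_lt₀ hζ
    have h6 : 0 ≤ ‖ζ‖⁻¹ := by positivity
    nlinarith [norm_nonneg (q ^ j), pow_nonneg (norm_nonneg q) j]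
  rw [h2, norm_one] at h3
  exact lt_irrefl _ h3

theorem Cf_rel (hq0 : q ≠ 0) (hq : ‖q‖ < 1) (h1 : 1 < ‖ζ‖ * ‖q‖) (h2 : ‖ζ‖ * ‖q‖ * ‖q‖ < 1) (c : ℕ) :
    Cf q ζ c * (1 - ζ * q) * (1 - ζ⁻¹ * q ^ c)
      = Cf q (ζ * q) c * (1 - ζ⁻¹) * (1 - ζ * q ^ (c + 1)) := by
  induction c with
  | zero =>
    unfold Cf
    simp
    ring
  | succ c ih =>
    have e1 : Cf q ζ (c + 1) = Cf q ζ c * ((1 - ζ * q ^ (c + 1)) * (1 - ζ⁻¹ * q ^ (c + 1)))⁻¹ := by
      unfold Cf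
      rw [Finset.prod_range_succ]
    have e2 : Cf q (ζ * q) (c + 1) = Cf q (ζ * q) c *
        ((1 - ζ * q ^ (c + 1 + 1)) * (1 - ζ⁻¹ * q ^ c))⁻¹ := by
      unfold Cf
      rw [Finset.prod_range_succ]
      congr 3
      · ring
      · rw [mul_inv, pow_succ]
        field_simp
    have a1 := out_ne0 hq h1 h2 c
    have a2 := out_ne0 hq h1 h2 (c + 1)
    have a3 := in_ne0 hq0 hq h1 c
    have a4 := in_ne0 hq0 hq h1 (c + 1)
    rw [e1, e2]
    rw [mul_inv, mul_inv]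
    have g1 : Cf q ζ c * ((1 - ζ * q ^ (c + 1))⁻¹ * (1 - ζ⁻¹ * q ^ (c + 1))⁻¹) * (1 - ζ * q) *
        (1 - ζ⁻¹ * q ^ (c + 1)) = (Cf q ζ c * (1 - ζ * q) * (1 - ζ⁻¹ * q ^ c)) *
          ((1 - ζ * q ^ (c + 1))⁻¹ * (1 - ζ⁻¹ * q ^ c)⁻¹) := by
      have b1 := inv_mul_cancel₀ a4
      have b2 := mul_inv_cancel₀ a3
      linear_combination (Cf q ζ c * (1 - ζ * q ^ (c + 1))⁻¹ * (1 - ζ * q)) * b1 -
        (Cf q ζ c * (1 - ζ * q ^ (c + 1))⁻¹ * (1 - ζ * q)) * b2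
    have g2 : Cf q (ζ * q) c * ((1 - ζ * q ^ (c + 1 + 1))⁻¹ * (1 - ζ⁻¹ * q ^ c)⁻¹) * (1 - ζ⁻¹) *
        (1 - ζ * q ^ (c + 1 + 1)) = (Cf q (ζ * q) c * (1 - ζ⁻¹) * (1 - ζ * q ^ (c + 1))) *
          ((1 - ζ * q ^ (c + 1))⁻¹ * (1 - ζ⁻¹ * q ^ c)⁻¹) := by
      have b1 := inv_mul_cancel₀ a2
      have b2 := mul_inv_cancel₀ a1
      linear_combination (Cf q (ζ * q) c * (1 - ζ⁻¹ * q ^ c)⁻¹ * (1 - ζ⁻¹)) * b1 -
        (Cf q (ζ * q) c * (1 - ζ⁻¹ * q ^ c)⁻¹ * (1 - ζ⁻¹)) * b2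
    rw [g1, g2, ih]

theorem Cp_rel (hq0 : q ≠ 0) (hq : ‖q‖ < 1) (h1 : 1 < ‖ζ‖ * ‖q‖) (h2 : ‖ζ‖ * ‖q‖ * ‖q‖ < 1) :
    Cp q ζ * (1 - ζ * q) = Cp q (ζ * q) * (1 - ζ⁻¹) := by
  have hζ0 : ζ ≠ 0 := by
    intro h
    rw [h, norm_zero, zero_mul] at h1
    linarith
  have hζ1 : 1 < ‖ζ‖ := by
    by_contra h
    push Not at h
    have := norm_nonneg q
    nlinarith
  have hinv : ‖ζ⁻¹‖ * ‖q‖ < 1 := by
    rw [norm_inv]
    have h5 : ‖ζ‖⁻¹ < 1 := inv_lt_one_of_one_lt₀ hζ1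
    have h6 : 0 ≤ ‖ζ‖⁻¹ := by positivity
    nlinarith [norm_nonneg q]
  have t1 : Tendsto (fun c => Cf q ζ c) atTop (𝓝 (Cp q ζ)) := by
    unfold Cf Cp
    apply tend_prod
    have a := mult_inv_of' (geo_summ hq ζ) (min (‖ζ‖ * ‖q‖ - 1) (1 - ‖ζ‖ * ‖q‖ * ‖q‖))
      (lt_min (by linarith) (by linarith)) (out_ne hq h1 h2)
    have b := mult_inv_of (geo_summ hq ζ⁻¹) _ hinv (geo_le hq ζ⁻¹)
    have := a.mul b
    simpa only [mul_inv] using this
  have t2 : Tendsto (fun c => Cf q (ζ * q) c) atTop (𝓝 (Cp q (ζ * q))) := by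
    apply Cf_tend hq
    · rw [norm_mul]; exact h2
    · rw [norm_inv, norm_mul, mul_inv, mul_assoc, inv_mul_cancel₀ (norm_ne_zero_iff.2 hq0), mul_one]
      exact inv_lt_one_of_one_lt₀ hζ1
  have hqp : Tendsto (fun c : ℕ => q ^ c) atTop (𝓝 0) := tendsto_pow_atTop_nhds_zero_of_norm_lt_one hq
  have t3 : Tendsto (fun c : ℕ => 1 - ζ⁻¹ * q ^ c) atTop (𝓝 (1 - ζ⁻¹ * 0)) :=
    tendsto_const_nhds.sub (hqp.const_mul _)
  have t4 : Tendsto (fun c : ℕ => 1 - ζ * q ^ (c + 1)) atTop (𝓝 (1 - ζ * 0)) :=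
    tendsto_const_nhds.sub ((hqp.comp (tendsto_add_atTop_nat 1)).const_mul _)
  rw [mul_zero, sub_zero] at t3 t4
  have L := (t1.mul_const (1 - ζ * q)).mul t3
  have R := (t2.mul_const (1 - ζ⁻¹)).mul t4
  have hEq : (fun c => Cf q ζ c * (1 - ζ * q) * (1 - ζ⁻¹ * q ^ c))
      = fun c => Cf q (ζ * q) c * (1 - ζ⁻¹) * (1 - ζ * q ^ (c + 1)) := by
    funext c
    exact Cf_rel hq0 hq h1 h2 c
  rw [hEq] at L
  have := tendsto_nhds_unique L R
  simpa using this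

end outer

/-- the coefficients of `(1 - q/z)/(1 - z)` in powers of `1/z` -/
noncomputable def bb (q : ℂ) (i : ℕ) : ℂ := if i = 0 then -1 else q - 1

theorem bb_norm {q : ℂ} (hq : ‖q‖ < 1) (i : ℕ) : ‖bb q i‖ ≤ 2 := by
  unfold bb
  split_ifs
  · rw [norm_neg, norm_one]
    norm_num
  · refine (norm_sub_le _ _).trans ?_
    rw [norm_one]
    linarith

theorem bb_sum {q x : ℂ} (hx : ‖x‖ < 1) : ∑' i, bb q i * x ^ i = -(1 - q * x) / (1 - x) := by
  have hne : 1 - x ≠ 0 := by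
    intro h
    have : x = 1 := (sub_eq_zero.1 h).symm
    rw [this, norm_one] at hx
    exact lt_irrefl _ hx
  have hs : Summable fun i => bb q i * x ^ i := by
    rw [← summable_nat_add_iff 1]
    have : (fun n : ℕ => bb q (n + 1) * x ^ (n + 1)) = fun n => ((q - 1) * x) * x ^ n := by
      funext n
      unfold bb
      rw [if_neg (Nat.succ_ne_zero n), pow_succ]
      ring
    rw [this]
    exact (summable_geometric_of_norm_lt_one hx).mul_left _
  rw [hs.tsum_eq_zero_add]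
  have : (fun n : ℕ => bb q (n + 1) * x ^ (n + 1)) = fun n => ((q - 1) * x) * x ^ n := by
    funext n
    unfold bb
    rw [if_neg (Nat.succ_ne_zero n), pow_succ]
    ring
  rw [this, tsum_mul_left, tsum_geometric_of_norm_lt_one hx]
  unfold bb
  rw [if_pos rfl]
  field_simp
  ring

theorem four2 (hC : YcoefStatement) : Four2Statement := by
  intro t c m ht
  set q := cexp (-t) with hqd
  have hq0 : q ≠ 0 := exp_ne_zero _
  have hqn : ‖q‖ = Real.exp (-t.re) := by rw [hqd, Complex.norm_exp, neg_re]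
  have hq : ‖q‖ < 1 := by
    rw [hqn, Real.exp_lt_one_iff]
    linarith
  -- the inner circle
  set r := Real.exp (1 / 2 * t.re) with hrd
  have hr : 0 < r := Real.exp_pos _
  have hr1 : 1 < r := Real.one_lt_exp_iff.2 (by linarith)
  have h1 : r * ‖q‖ < 1 := by
    rw [hqn, hrd, ← Real.exp_add, Real.exp_lt_one_iff]
    linarith
  have h2 : r⁻¹ * ‖q‖ < 1 := by
    rw [hqn, hrd, ← Real.exp_neg, ← Real.exp_add, Real.exp_lt_one_iff]
    linarith
  obtain ⟨hm, B, hB, hBb⟩ := Cp_meas hq r hr h1 h2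
  -- the outer circle
  set ρ := Real.exp (3 / 2 * t.re) with hρd
  have hρ1 : 1 ≤ ρ := Real.one_le_exp (by positivity)
  have hρ : 0 < ρ := Real.exp_pos _
  have hρr : ρ * ‖q‖ = r := by
    rw [hqn, hρd, hrd, ← Real.exp_add]
    congr 1
    ring
  have hzq : ∀ φ : ℝ, (ρ : ℂ) * cexp (I * φ) * q = (r : ℂ) * cexp (I * ((φ + -t.im : ℝ) : ℂ)) := by
    intro φ
    rw [hqd, hρd, hrd, Complex.ofReal_exp, Complex.ofReal_exp, ← Complex.exp_add,
      ← Complex.exp_add, ← Complex.exp_add]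
    congr 1
    nth_rewrite 2 [← Complex.re_add_im t]
    push_cast
    ring
  have hcirc : ∀ φ : ℝ, ‖(ρ : ℂ) * cexp (I * φ)‖ * ‖q‖ = r := fun φ => by
    rw [norm_circ ρ hρ, hρr]
  -- the relation
  have hrel : ∀ φ : ℝ, Cp q ((ρ : ℂ) * cexp (I * φ))
      = Cp q ((r : ℂ) * cexp (I * ((φ + -t.im : ℝ) : ℂ))) *
        ((1 - q * ((r : ℂ) * cexp (I * ((φ + -t.im : ℝ) : ℂ)))⁻¹) /
          (1 - (r : ℂ) * cexp (I * ((φ + -t.im : ℝ) : ℂ)))) := by
    intro φ
    have h := Cp_rel (ζ := (ρ : ℂ) * cexp (I * φ)) hq0 hq (by rw [hcirc]; exact hr1)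
      (by rw [hcirc]; exact h1)
    rw [hzq] at h
    set z := (r : ℂ) * cexp (I * ((φ + -t.im : ℝ) : ℂ)) with hz
    have hz0 : z ≠ 0 := circ_ne r hr _
    have hzn : ‖z‖ = r := norm_circ r hr _
    have hz1 : 1 - z ≠ 0 := by
      intro h'
      have : z = 1 := (sub_eq_zero.1 h').symm
      rw [this, norm_one] at hzn
      linarith
    have hinv : ((ρ : ℂ) * cexp (I * φ))⁻¹ = q * z⁻¹ := by
      have hne := circ_ne ρ hρ φ
      rw [hz, ← hzq]
      field_simp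
    rw [hinv] at h
    rw [← mul_div_assoc, eq_div_iff hz1]
    exact h
  set E : ℂ → ℂ := fun z => (1 - q * z⁻¹) / (1 - z) with hE
  have hEc : Continuous fun ψ : ℝ => E ((r : ℂ) * cexp (I * ψ)) := by
    rw [hE]
    apply Continuous.div
    · apply continuous_const.sub
      apply continuous_const.mul
      apply Continuous.inv₀ (by fun_prop)
      exact circ_ne r hr
    · fun_prop
    · intro ψ h'
      have h3 := norm_circ r hr ψ
      have : (r : ℂ) * cexp (I * ψ) = 1 := (sub_eq_zero.1 h').symm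
      rw [this, norm_one] at h3
      linarith
  have hEb : ∀ z : ℂ, ‖z‖ = r → ‖E z‖ ≤ 2 / (r - 1) := by
    intro z hz
    rw [hE]
    simp only
    rw [norm_div]
    apply div_le_div₀ (by norm_num) _ (by linarith)
    · have := norm_sub_norm_le z 1
      rw [norm_one, hz, norm_sub_rev] at this
      exact this
    · refine (norm_sub_le _ _).trans ?_
      rw [norm_one, norm_mul, norm_inv, hz]
      have : r⁻¹ < 1 := inv_lt_one_of_one_lt₀ hr1
      have h0 : 0 ≤ r⁻¹ := by positivity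
      nlinarith [norm_nonneg q]
  have hD : ∀ φ : ℝ, Cp q ((ρ : ℂ) * cexp (I * φ))
      = (fun ψ : ℝ => Cp q ((r : ℂ) * cexp (I * ψ)) * E ((r : ℂ) * cexp (I * ψ))) (φ + -t.im) := by
    intro φ
    rw [hrel]
  have hmD : StronglyMeasurable (fun φ : ℝ => Cp q ((ρ : ℂ) * cexp (I * φ))) := by
    have : (fun φ : ℝ => Cp q ((ρ : ℂ) * cexp (I * φ)))
        = (fun ψ : ℝ => Cp q ((r : ℂ) * cexp (I * ψ)) * E ((r : ℂ) * cexp (I * ψ))) ∘
          (fun φ : ℝ => φ + -t.im) := funext hD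
    rw [this]
    exact (hm.mul hEc.stronglyMeasurable).comp_measurable (by fun_prop)
  have hbD : ∀ φ : ℝ, ‖Cp q ((ρ : ℂ) * cexp (I * φ))‖ ≤ B * (2 / (r - 1)) := by
    intro φ
    rw [hD]
    simp only
    rw [norm_mul]
    exact mul_le_mul (hBb _) (hEb _ (norm_circ r hr _)) (norm_nonneg _) hB.le
  -- the coefficients
  have hW : ∀ ν : ℕ, (1 / (2 * (Real.pi : ℂ))) * ∫ φ in (-Real.pi)..Real.pi,
      (((r : ℂ) * cexp (I * φ)) ^ ν)⁻¹ * Cp q ((r : ℂ) * cexp (I * φ))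
      = (QP q)⁻¹ ^ 2 * ∑' k : ℕ, vk q k * q ^ ((k + 1) * ν) := by
    intro ν
    have h3 : ‖q‖ < r := by linarith
    have h4 : r < ‖q‖⁻¹ := by
      rw [hqn, hrd, ← Real.exp_neg]
      apply Real.exp_lt_exp.2
      linarith
    rw [hC q r ν hq0 hq h3 h4]
    congr 1
    apply tsum_congr
    intro k
    unfold vk
    rw [pow_add]
    ring
  have key := four_key ρ hρ1 t ht c m 1 (fun φ : ℝ => Cp q ((ρ : ℂ) * cexp (I * φ)))
    (B * (2 / (r - 1))) hmD hbD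
    (by
      intro μ
      rw [← hqd]
      -- transform the integral
      have e1 : ∀ φ : ℝ, (((ρ : ℂ) * cexp (I * φ)) ^ μ)⁻¹ * Cp q ((ρ : ℂ) * cexp (I * φ))
          = (fun ψ : ℝ => (fun z : ℂ => q ^ μ * ((z ^ μ)⁻¹ * (Cp q z * E z)))
            ((r : ℂ) * cexp (I * ψ))) (φ + -t.im) := by
        intro φ
        rw [hD φ]
        simp only
        rw [← hzq φ]
        have hne := circ_ne ρ hρ φ
        generalize (ρ : ℂ) * cexp (I * φ) = z at hne ⊢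
        rw [mul_pow z q μ, mul_inv]
        have h8 := mul_inv_cancel₀ (pow_ne_zero μ hq0)
        linear_combination (-((z ^ μ)⁻¹ * (Cp q (z * q) * E (z * q)))) * h8
      simp only [e1]
      rw [per_shift _ (circ_per r (fun z : ℂ => q ^ μ * ((z ^ μ)⁻¹ * (Cp q z * E z)))) (-t.im)]
      have hrinv : r⁻¹ < 1 := inv_lt_one_of_one_lt₀ hr1
      have e2 : ∀ φ : ℝ, q ^ μ * ((((r : ℂ) * cexp (I * φ)) ^ μ)⁻¹ *
          (Cp q ((r : ℂ) * cexp (I * φ)) * E ((r : ℂ) * cexp (I * φ))))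
          = q ^ μ * (Cp q ((r : ℂ) * cexp (I * φ)) *
            ∑' i : ℕ, bb q i * (((r : ℂ) * cexp (I * φ)) ^ (μ + i + 1))⁻¹) := by
        intro φ
        set z := (r : ℂ) * cexp (I * φ) with hz
        have hz0 : z ≠ 0 := circ_ne r hr _
        have hzn : ‖z‖ = r := norm_circ r hr _
        have hz1 : 1 - z ≠ 0 := by
          intro h'
          have : z = 1 := (sub_eq_zero.1 h').symm
          rw [this, norm_one] at hzn
          linarith
        have e3 : ∀ i : ℕ, bb q i * (z ^ (μ + i + 1))⁻¹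
            = ((z ^ μ)⁻¹ * z⁻¹) * (bb q i * z⁻¹ ^ i) := by
          intro i
          rw [pow_succ, pow_add, mul_inv, mul_inv, inv_pow]
          ring
        simp only [e3]
        rw [tsum_mul_left, bb_sum (by rw [norm_inv, hzn]; exact hrinv)]
        have hz2 : 1 - z⁻¹ ≠ 0 := by
          intro h'
          have : z⁻¹ = 1 := (sub_eq_zero.1 h').symm
          rw [inv_eq_one] at this
          exact hz1 (by rw [this, sub_self])
        have e4 : z⁻¹ * (-(1 - q * z⁻¹) / (1 - z⁻¹)) = (1 - q * z⁻¹) / (1 - z) := by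
          rw [eq_div_iff hz1]
          have hz3 : z - 1 ≠ 0 := fun h' => hz1 (by linear_combination -h')
          have : 1 - z⁻¹ = (z - 1) * z⁻¹ := by
            field_simp
          rw [this]
          field_simp
          ring
        rw [mul_assoc ((z ^ μ)⁻¹), e4, hE]
        ring
      simp only [e2]
      rw [intervalIntegral.integral_const_mul, mul_left_comm,
        circ_mul r hr (fun φ : ℝ => Cp q ((r : ℂ) * cexp (I * φ))) B hm hBb (bb q)
        (fun i => μ + i + 1)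
        (by
          apply Summable.of_nonneg_of_le (fun _ => by positivity) _
            ((summable_geometric_of_lt_one (by positivity) hrinv).mul_left 2)
          intro i
          have h5 : (r ^ (μ + i + 1))⁻¹ ≤ r⁻¹ ^ i := by
            rw [inv_pow]
            apply inv_anti₀ (by positivity)
            exact pow_le_pow_right₀ hr1.le (by omega)
          exact mul_le_mul (bb_norm hq i) h5 (by positivity) (by norm_num))]
      simp only [hW]
      -- the double sum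
      have hvs : Summable fun k : ℕ => ‖vk q k‖ :=
        Summable.of_nonneg_of_le (fun _ => norm_nonneg _) (vk_norm hq)
          ((summable_geometric_of_lt_one (norm_nonneg _) hq).mul_left _)
      have hgs : Summable fun i : ℕ => (2 * ‖q‖ ^ i : ℝ) :=
        (summable_geometric_of_lt_one (norm_nonneg _) hq).mul_left _
      have hss : Summable fun z : ℕ × ℕ =>
          bb q z.1 * (vk q z.2 * q ^ ((z.2 + 1) * (μ + z.1 + 1))) := by
        apply Summable.of_norm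
        apply Summable.of_nonneg_of_le (fun _ => norm_nonneg _) _
          (hgs.mul_of_nonneg hvs (fun _ => by positivity) (fun _ => norm_nonneg _))
        intro z
        rw [norm_mul, norm_mul, norm_pow]
        have h6 : ‖q‖ ^ ((z.2 + 1) * (μ + z.1 + 1)) ≤ ‖q‖ ^ z.1 :=
          pow_le_pow_of_le_one (norm_nonneg _) hq.le (by nlinarith)
        have h7 := bb_norm hq z.1
        calc ‖bb q z.1‖ * (‖vk q z.2‖ * ‖q‖ ^ ((z.2 + 1) * (μ + z.1 + 1)))
            ≤ 2 * (‖vk q z.2‖ * ‖q‖ ^ z.1) := by gcongr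
          _ = 2 * ‖q‖ ^ z.1 * ‖vk q z.2‖ := by ring
      have f1 : ∀ i : ℕ, bb q i * ((QP q)⁻¹ ^ 2 * ∑' k : ℕ, vk q k * q ^ ((k + 1) * (μ + i + 1)))
          = (QP q)⁻¹ ^ 2 * ∑' k : ℕ, bb q i * (vk q k * q ^ ((k + 1) * (μ + i + 1))) := by
        intro i
        rw [tsum_mul_left]
        ring
      simp only [f1]
      rw [tsum_mul_left, mul_left_comm]
      congr 1
      rw [← Summable.tsum_comm
        (f := fun i k => bb q i * (vk q k * q ^ ((k + 1) * (μ + i + 1)))) hss, ← tsum_mul_left]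
      apply tsum_congr
      intro k
      have f2 : ∀ i : ℕ, bb q i * (vk q k * q ^ ((k + 1) * (μ + i + 1)))
          = (vk q k * q ^ ((k + 1) * (μ + 1))) * (bb q i * (q ^ (k + 1)) ^ i) := by
        intro i
        have : q ^ ((k + 1) * (μ + i + 1)) = q ^ ((k + 1) * (μ + 1)) * (q ^ (k + 1)) ^ i := by
          rw [← pow_mul, ← pow_add]
          congr 1
          ring
        rw [this]
        ring
      simp only [f2]
      rw [tsum_mul_left, bb_sum (by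
        rw [norm_pow]
        exact pow_lt_one₀ (norm_nonneg _) hq (Nat.succ_ne_zero k))]
      have g1 : (1 : ℂ) - q ^ (k + 1) ≠ 0 := one_sub_pow_ne hq (Nat.succ_ne_zero k)
      unfold vk
      have g2 : (k + 1) * (k + 1 + 1) / 2 = k * (k + 1) / 2 + (k + 1) := by
        have a := two_tri k
        have b := two_tri (k + 1)
        nlinarith
      have g3 : q ^ ((k + 1 + 1) * μ) = q ^ ((k + 1) * μ) * q ^ μ := by
        rw [← pow_add]
        congr 1
        ring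
      have g4 : q ^ ((k + 1) * (μ + 1)) = q ^ ((k + 1) * μ) * q ^ (k + 1) := by
        rw [← pow_add]
        congr 1
      rw [g2, g3, g4, pow_add q (k * (k + 1) / 2), pow_succ (-1 : ℂ) k, pow_succ q (k + 1)]
      field_simp)
  rw [← hqd] at key
  rw [← key]
  congr 1
  set G : ℂ → ℂ := fun ζ => Cp q ζ * ∑' x, al q c x * (ζ ^ (ee m x))⁻¹ with hG
  have e1 : ∀ φ : ℝ, FF (3 / 2) t c m φ
      = (fun ψ : ℝ => G ((ρ : ℂ) * cexp (I * ψ))) (φ + 3 / 2 * t.im) := by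
    intro φ
    rw [FF_eq (3 / 2) (by norm_num) t ht c m φ]
  simp only [e1]
  rw [per_shift (fun ψ : ℝ => G ((ρ : ℂ) * cexp (I * ψ))) (circ_per ρ G)]

end Pool.Agent.UR.H80
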