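import Pool.Agent.Helper80_UR.Yf

/-! # Integrals over a circle and infinite products (helper80) -/

namespace Pool.Agent.UR.H80

open Pool.Agent.Helper21_UR Filter Topology Complex MeasureTheory intervalIntegral

/-- orthogonality -/
theorem circ_int (ρ : ℝ) (k : ℤ) :
    ∫ φ in (-Real.pi)..Real.pi, ((ρ : ℂ) * cexp (I * φ)) ^ k = if k = 0 then 2 * (Real.pi : ℂ) else 0 := by
  by_cases hk : k = 0
  · subst hk
    rw [if_pos rfl]
    simp only [zpow_zero]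
    rw [intervalIntegral.integral_const]
    simp
    ring
  · rw [if_neg hk]
    have h1 : ∀ φ : ℝ, ((ρ : ℂ) * cexp (I * φ)) ^ k = (ρ : ℂ) ^ k * cexp (((k : ℂ) * I) * φ) := by
      intro φ
      rw [mul_zpow, ← Complex.exp_int_mul]
      congr 2
      ring
    have hc : (k : ℂ) * I ≠ 0 := mul_ne_zero (Int.cast_ne_zero.2 hk) I_ne_zero
    rw [intervalIntegral.integral_congr (fun φ _ => h1 φ), intervalIntegral.integral_const_mul,
      integral_exp_mul_complex hc]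
    have h2 : cexp ((k : ℂ) * I * (Real.pi : ℝ)) = cexp ((k : ℂ) * I * ((-Real.pi : ℝ) : ℂ)) := by
      have : (k : ℂ) * I * (Real.pi : ℝ) = (k : ℂ) * I * ((-Real.pi : ℝ) : ℂ)
          + (k : ℂ) * (2 * (Real.pi : ℂ) * I) := by
        push_cast
        ring
      rw [this, Complex.exp_add, Complex.exp_int_mul_two_pi_mul_I, mul_one]
    rw [h2, sub_self, zero_div, mul_zero]

theorem norm_circ (ρ : ℝ) (hρ : 0 < ρ) (φ : ℝ) : ‖(ρ : ℂ) * cexp (I * φ)‖ = ρ := by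
  rw [norm_mul, mul_comm I, Complex.norm_exp_ofReal_mul_I, mul_one, Complex.norm_real,
    Real.norm_of_nonneg hρ.le]

theorem circ_ne (ρ : ℝ) (hρ : 0 < ρ) (φ : ℝ) : (ρ : ℂ) * cexp (I * φ) ≠ 0 := by
  rw [← norm_pos_iff, norm_circ ρ hρ]
  exact hρ

theorem circ_cont (ρ : ℝ) (hρ : 0 < ρ) (k : ℤ) :
    Continuous fun φ : ℝ => ((ρ : ℂ) * cexp (I * φ)) ^ k := by
  apply Continuous.zpow₀ (by fun_prop)
  intro φ
  exact Or.inl (circ_ne ρ hρ φ)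

/-- termwise integration of Laurent series -/
theorem circ_sum {ι : Type*} [Countable ι] (ρ : ℝ) (hρ : 0 < ρ) (a : ι → ℂ) (k : ι → ℤ)
    (hs : Summable fun i => ‖a i‖ * ρ ^ (k i)) (F : ℝ → ℂ)
    (hF : ∀ φ : ℝ, F φ = ∑' i, a i * ((ρ : ℂ) * cexp (I * φ)) ^ (k i)) :
    (1 / (2 * (Real.pi : ℂ))) * ∫ φ in (-Real.pi)..Real.pi, F φ
      = ∑' i, a i * (if k i = 0 then 1 else 0) := by
  have hn : ∀ i (φ : ℝ), ‖a i * ((ρ : ℂ) * cexp (I * φ)) ^ (k i)‖ = ‖a i‖ * ρ ^ (k i) := by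
    intro i φ
    rw [norm_mul, norm_zpow, norm_circ ρ hρ]
  have h := intervalIntegral.hasSum_integral_of_dominated_convergence (μ := volume)
    (a := -Real.pi) (b := Real.pi)
    (F := fun i (φ : ℝ) => a i * ((ρ : ℂ) * cexp (I * φ)) ^ (k i)) (f := F)
    (fun i _ => ‖a i‖ * ρ ^ (k i))
    (fun i => (continuous_const.mul (circ_cont ρ hρ (k i))).aestronglyMeasurable)
    (fun i => ae_of_all _ fun φ _ => (hn i φ).le)
    (ae_of_all _ fun φ _ => hs)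
    (intervalIntegrable_const)
    (ae_of_all _ fun φ _ => by
      have : Summable fun i => a i * ((ρ : ℂ) * cexp (I * φ)) ^ (k i) :=
        Summable.of_norm (by simpa only [hn] using hs)
      show HasSum (fun i => a i * ((ρ : ℂ) * cexp (I * φ)) ^ (k i)) (F φ)
      rw [hF φ]
      exact this.hasSum)
  rw [← h.tsum_eq, ← tsum_mul_left]
  congr 1
  funext i
  rw [intervalIntegral.integral_const_mul, circ_int]
  have hpi : (2 * (Real.pi : ℂ)) ≠ 0 := by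
    have := Real.pi_ne_zero
    simp [this]
  split_ifs
  · field_simp
  · simp

/-! ## products -/

theorem mult_of {u : ℕ → ℂ} (hu : Summable fun j => ‖u j‖) : Multipliable fun j => (1 - u j) := by
  have h := multipliable_one_add_of_summable (R := ℂ) (f := fun j => - u j) (by simpa using hu)
  simpa [sub_eq_add_neg] using h

theorem mult_inv_of {u : ℕ → ℂ} (hu : Summable fun j => ‖u j‖) (θ : ℝ) (hθ : θ < 1)
    (hθu : ∀ j, ‖u j‖ ≤ θ) : Multipliable fun j => (1 - u j)⁻¹ := by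
  have hne : ∀ j, 1 - u j ≠ 0 := by
    intro j h
    have h1 : u j = 1 := (sub_eq_zero.1 h).symm
    have := hθu j
    rw [h1, norm_one] at this
    linarith
  have hlow : ∀ j, 1 - θ ≤ ‖1 - u j‖ := by
    intro j
    have h1 : ‖(1 : ℂ)‖ - ‖u j‖ ≤ ‖1 - u j‖ := norm_sub_norm_le _ _
    rw [norm_one] at h1
    linarith [hθu j]
  have h1 : ∀ j, (1 - u j)⁻¹ = 1 + u j / (1 - u j) := by
    intro j
    have := hne j
    field_simp
    ring
  simp only [h1]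
  apply multipliable_one_add_of_summable
  apply Summable.of_nonneg_of_le (fun _ => norm_nonneg _) _ (hu.mul_right (1 - θ)⁻¹)
  intro j
  rw [norm_div, div_eq_mul_inv]
  apply mul_le_mul_of_nonneg_left _ (norm_nonneg _)
  exact inv_anti₀ (by linarith) (hlow j)

theorem geo_summ {q : ℂ} (hq : ‖q‖ < 1) (z : ℂ) : Summable fun j : ℕ => ‖z * q ^ (j + 1)‖ := by
  have : (fun j : ℕ => ‖z * q ^ (j + 1)‖) = fun j : ℕ => (‖z‖ * ‖q‖) * ‖q‖ ^ j := by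
    funext j
    rw [norm_mul, norm_pow, pow_succ]
    ring
  rw [this]
  exact (summable_geometric_of_lt_one (norm_nonneg _) hq).mul_left _

theorem geo_le {q : ℂ} (hq : ‖q‖ < 1) (z : ℂ) (j : ℕ) : ‖z * q ^ (j + 1)‖ ≤ ‖z‖ * ‖q‖ := by
  rw [norm_mul, norm_pow, pow_succ]
  have : ‖q‖ ^ j ≤ 1 := pow_le_one₀ (norm_nonneg _) hq.le
  calc ‖z‖ * (‖q‖ ^ j * ‖q‖) ≤ ‖z‖ * (1 * ‖q‖) := by gcongr
    _ = ‖z‖ * ‖q‖ := by ring

theorem tend_prod {f : ℕ → ℂ} (hf : Multipliable f) :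
    Tendsto (fun n => ∏ j ∈ Finset.range n, f j) atTop (𝓝 (∏' j, f j)) :=
  hf.hasProd.tendsto_prod_nat

theorem qp_tend {q : ℂ} (hq : ‖q‖ < 1) : Tendsto (fun n => qp q n) atTop (𝓝 (QP q)) := by
  unfold qp QP
  have h := tend_prod (mult_of (geo_summ hq 1))
  simpa using h

theorem QP_ne {q : ℂ} (hq : ‖q‖ < 1) : QP q ≠ 0 := by
  have h1 := tend_prod (mult_inv_of (geo_summ hq 1) ‖q‖ hq (fun j => by
    have := geo_le hq 1 j
    simpa using this))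
  simp only [one_mul] at h1
  have h2 := (qp_tend hq).mul h1
  have h3 : ∀ n, qp q n * ∏ j ∈ Finset.range n, (1 - q ^ (j + 1))⁻¹ = 1 := by
    intro n
    unfold qp
    rw [← Finset.prod_mul_distrib]
    apply Finset.prod_eq_one
    intro j _
    exact mul_inv_cancel₀ (one_sub_pow_ne hq (Nat.succ_ne_zero j))
  simp only [h3] at h2
  have h4 := tendsto_nhds_unique h2 tendsto_const_nhds
  intro h
  rw [h, zero_mul] at h4
  exact zero_ne_one h4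

theorem qp_inv_tend {q : ℂ} (hq : ‖q‖ < 1) : Tendsto (fun n => (qp q n)⁻¹) atTop (𝓝 (QP q)⁻¹) :=
  (qp_tend hq).inv₀ (QP_ne hq)

theorem bdd_of_tend {f : ℕ → ℂ} {l : ℂ} (h : Tendsto f atTop (𝓝 l)) :
    ∃ M : ℝ, 0 < M ∧ ∀ n, ‖f n‖ ≤ M := by
  obtain ⟨M, hM⟩ := h.norm.bddAbove_range
  refine ⟨max M 1, by positivity, fun n => (hM ⟨n, rfl⟩).trans (le_max_left _ _)⟩

/-- the finite product `C_c(ζ)` -/
noncomputable def Cf (q ζ : ℂ) (c : ℕ) : ℂ :=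
  ∏ j ∈ Finset.range c, ((1 - ζ * q ^ (j + 1)) * (1 - ζ⁻¹ * q ^ (j + 1)))⁻¹

theorem Cf_tend {q ζ : ℂ} (hq : ‖q‖ < 1) (h1 : ‖ζ‖ * ‖q‖ < 1) (h2 : ‖ζ⁻¹‖ * ‖q‖ < 1) :
    Tendsto (fun c => Cf q ζ c) atTop (𝓝 (Cp q ζ)) := by
  unfold Cf Cp
  apply tend_prod
  have a := mult_inv_of (geo_summ hq ζ) _ h1 (geo_le hq ζ)
  have b := mult_inv_of (geo_summ hq ζ⁻¹) _ h2 (geo_le hq ζ⁻¹)
  have := a.mul b
  simpa only [mul_inv] using this

theorem Cf_norm {q ζ : ℂ} (hq : ‖q‖ < 1) (ρ : ℝ) (hρ : 0 < ρ) (hζ : ‖ζ‖ = ρ) (h1 : ρ * ‖q‖ < 1)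
    (h2 : ρ⁻¹ * ‖q‖ < 1) (c : ℕ) : ‖Cf q ζ c‖ ≤ ‖Cf (‖q‖ : ℂ) (ρ : ℂ) c‖ := by
  unfold Cf
  rw [norm_prod, norm_prod]
  apply Finset.prod_le_prod (fun _ _ => norm_nonneg _)
  intro j _
  rw [norm_inv, norm_inv, norm_mul, norm_mul]
  have e1 : ‖(1 : ℂ) - (ρ : ℂ) * (‖q‖ : ℂ) ^ (j + 1)‖ = 1 - ρ * ‖q‖ ^ (j + 1) := by
    have : (1 : ℂ) - (ρ : ℂ) * (‖q‖ : ℂ) ^ (j + 1) = ((1 - ρ * ‖q‖ ^ (j + 1) : ℝ) : ℂ) := by
      push_cast
      ring
    rw [this, Complex.norm_real, Real.norm_of_nonneg]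
    have := geo_le hq ζ j
    rw [norm_mul, norm_pow, hζ] at this
    linarith
  have e2 : ‖(1 : ℂ) - (ρ : ℂ)⁻¹ * (‖q‖ : ℂ) ^ (j + 1)‖ = 1 - ρ⁻¹ * ‖q‖ ^ (j + 1) := by
    have : (1 : ℂ) - (ρ : ℂ)⁻¹ * (‖q‖ : ℂ) ^ (j + 1) = ((1 - ρ⁻¹ * ‖q‖ ^ (j + 1) : ℝ) : ℂ) := by
      push_cast
      ring
    rw [this, Complex.norm_real, Real.norm_of_nonneg]
    have := geo_le hq ζ⁻¹ j
    rw [norm_mul, norm_pow, norm_inv, hζ] at this
    linarith
  have p1 : 0 < 1 - ρ * ‖q‖ ^ (j + 1) := by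
    have := geo_le hq ζ j
    rw [norm_mul, norm_pow, hζ] at this
    linarith
  have p2 : 0 < 1 - ρ⁻¹ * ‖q‖ ^ (j + 1) := by
    have := geo_le hq ζ⁻¹ j
    rw [norm_mul, norm_pow, norm_inv, hζ] at this
    linarith
  rw [e1, e2]
  apply inv_anti₀ (mul_pos p1 p2)
  apply mul_le_mul _ _ p2.le (norm_nonneg _)
  · have h := norm_sub_norm_le (1 : ℂ) (ζ * q ^ (j + 1))
    rw [norm_one, norm_mul, norm_pow, hζ] at h
    exact h
  · have h := norm_sub_norm_le (1 : ℂ) (ζ⁻¹ * q ^ (j + 1))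
    rw [norm_one, norm_mul, norm_pow, norm_inv, hζ] at h
    exact h

end Pool.Agent.UR.H80
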