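import Pool.Agent.Helper80_UR.Ycoef

/-! # The common part of FOUR1 and FOUR2 (helper80) -/

namespace Pool.Agent.UR.H80

open Pool.Agent.Helper21_UR Filter Topology Complex MeasureTheory intervalIntegral

/-- termwise integration against a bounded function -/
theorem circ_mul {ι : Type*} [Countable ι] (ρ : ℝ) (hρ : 0 < ρ) (D : ℝ → ℂ) (B : ℝ)
    (hD : StronglyMeasurable D) (hB : ∀ φ, ‖D φ‖ ≤ B) (a : ι → ℂ) (e : ι → ℕ)
    (hs : Summable fun i => ‖a i‖ * (ρ ^ (e i))⁻¹) :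
    (1 / (2 * (Real.pi : ℂ))) * ∫ φ in (-Real.pi)..Real.pi,
        (D φ * ∑' i, a i * (((ρ : ℂ) * cexp (I * φ)) ^ (e i))⁻¹)
      = ∑' i, a i * ((1 / (2 * (Real.pi : ℂ))) * ∫ φ in (-Real.pi)..Real.pi,
        (((ρ : ℂ) * cexp (I * φ)) ^ (e i))⁻¹ * D φ) := by
  have hn : ∀ i (φ : ℝ), ‖a i * (((ρ : ℂ) * cexp (I * φ)) ^ (e i))⁻¹‖ = ‖a i‖ * (ρ ^ (e i))⁻¹ := by
    intro i φ
    rw [norm_mul, norm_inv, norm_pow, norm_circ ρ hρ]
  have hc : ∀ i, Continuous fun φ : ℝ => a i * (((ρ : ℂ) * cexp (I * φ)) ^ (e i))⁻¹ := by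
    intro i
    apply Continuous.mul continuous_const
    apply Continuous.inv₀ (by fun_prop)
    intro φ
    exact pow_ne_zero _ (circ_ne ρ hρ φ)
  have h := intervalIntegral.hasSum_integral_of_dominated_convergence (μ := volume)
    (a := -Real.pi) (b := Real.pi)
    (F := fun i (φ : ℝ) => D φ * (a i * (((ρ : ℂ) * cexp (I * φ)) ^ (e i))⁻¹))
    (f := fun φ : ℝ => D φ * ∑' i, a i * (((ρ : ℂ) * cexp (I * φ)) ^ (e i))⁻¹)
    (fun i _ => B * (‖a i‖ * (ρ ^ (e i))⁻¹))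
    (fun i => (hD.mul (hc i).stronglyMeasurable).aestronglyMeasurable)
    (fun i => ae_of_all _ fun φ _ => by
      rw [norm_mul, hn i φ]
      exact mul_le_mul_of_nonneg_right (hB φ) (by positivity))
    (ae_of_all _ fun φ _ => hs.mul_left B)
    (intervalIntegrable_const)
    (ae_of_all _ fun φ _ => by
      have : Summable fun i => a i * (((ρ : ℂ) * cexp (I * φ)) ^ (e i))⁻¹ :=
        Summable.of_norm (by simpa only [hn] using hs)
      exact this.hasSum.mul_left _)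
  rw [← h.tsum_eq, ← tsum_mul_left]
  apply tsum_congr
  intro i
  have : ∀ φ : ℝ, D φ * (a i * (((ρ : ℂ) * cexp (I * φ)) ^ (e i))⁻¹)
      = a i * ((((ρ : ℂ) * cexp (I * φ)) ^ (e i))⁻¹ * D φ) := fun φ => by ring
  simp only [this]
  rw [intervalIntegral.integral_const_mul]
  ring

/-- the coefficients of the series -/
noncomputable def vk (q : ℂ) (k : ℕ) : ℂ := (-1) ^ k * q ^ (k * (k + 1) / 2) * (1 - q ^ (k + 1))

theorem tri_ge (k : ℕ) : k ≤ k * (k + 1) / 2 := by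
  have := two_tri k
  rcases Nat.eq_zero_or_pos k with h | h
  · omega
  · nlinarith

theorem vk_norm {q : ℂ} (hq : ‖q‖ < 1) (k : ℕ) : ‖vk q k‖ ≤ 2 * ‖q‖ ^ k := by
  unfold vk
  rw [norm_mul, norm_mul, norm_pow, norm_neg, norm_one, one_pow, one_mul, norm_pow]
  have b1 : ‖q‖ ^ (k * (k + 1) / 2) ≤ ‖q‖ ^ k :=
    pow_le_pow_of_le_one (norm_nonneg _) hq.le (tri_ge k)
  have b2 : ‖(1 : ℂ) - q ^ (k + 1)‖ ≤ 2 := by
    refine (norm_sub_le _ _).trans ?_
    rw [norm_one, norm_pow]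
    have : ‖q‖ ^ (k + 1) ≤ 1 := pow_le_one₀ (norm_nonneg _) hq.le
    linarith
  calc ‖q‖ ^ (k * (k + 1) / 2) * ‖(1 : ℂ) - q ^ (k + 1)‖ ≤ ‖q‖ ^ k * 2 := by gcongr
    _ = 2 * ‖q‖ ^ k := by ring

/-- the exponents and coefficients of `ζ^(-m-1) pt(ζ^(-2)) (e^c ζ - 2 + e^(-c)/ζ)` -/
noncomputable def al (q : ℂ) (c : ℝ) (x : ℕ × Fin 3) : ℂ :=
  (-1) ^ x.1 * q ^ (x.1 * (x.1 + 1) / 2) *
    (if x.2 = 0 then (Real.exp c : ℂ) else if x.2 = 1 then -2 else (Real.exp (-c) : ℂ))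

def ee (m : ℕ) (x : ℕ × Fin 3) : ℕ := m + 2 * x.1 + x.2

theorem al_summ {q : ℂ} (hq : ‖q‖ < 1) (c : ℝ) : Summable fun x => ‖al q c x‖ := by
  have h1 : Summable fun j : ℕ => ‖q‖ ^ j := summable_geometric_of_lt_one (norm_nonneg _) hq
  have h2 : Summable fun _ : Fin 3 => (Real.exp c + 2 + Real.exp (-c) : ℝ) := Summable.of_finite
  have h3 := h1.mul_of_nonneg h2 (fun _ => by positivity) (fun _ => by positivity)
  apply Summable.of_nonneg_of_le (fun _ => norm_nonneg _) _ h3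
  intro x
  unfold al
  rw [norm_mul, norm_mul, norm_pow, norm_neg, norm_one, one_pow, one_mul, norm_pow]
  apply mul_le_mul (pow_le_pow_of_le_one (norm_nonneg _) hq.le (tri_ge _)) _ (norm_nonneg _)
    (by positivity)
  have e1 := Real.exp_pos c
  have e2 := Real.exp_pos (-c)
  split_ifs
  · rw [Complex.norm_real, Real.norm_of_nonneg e1.le]
    linarith
  · rw [norm_neg]
    have : ‖(2 : ℂ)‖ = 2 := by simp
    rw [this]
    linarith
  · rw [Complex.norm_real, Real.norm_of_nonneg e2.le]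
    linarith

theorem al_sum {q : ℂ} (hq : ‖q‖ < 1) (c : ℝ) (m : ℕ) {y : ℂ} (hy : ‖y‖ ≤ 1) :
    ∑' x, al q c x * y ^ (ee m x)
      = y ^ m * ((Real.exp c : ℂ) - 2 * y + (Real.exp (-c) : ℂ) * y ^ 2) * pt q (y ^ 2) := by
  have hs : Summable fun x => al q c x * y ^ (ee m x) := by
    apply Summable.of_norm
    apply Summable.of_nonneg_of_le (fun _ => norm_nonneg _) _ (al_summ hq c)
    intro x
    rw [norm_mul, norm_pow]
    have : ‖y‖ ^ ee m x ≤ 1 := pow_le_one₀ (norm_nonneg _) hy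
    nlinarith [norm_nonneg (al q c x)]
  rw [hs.tsum_prod]
  unfold pt
  rw [← tsum_mul_left]
  apply tsum_congr
  intro j
  rw [tsum_fintype, Fin.sum_univ_three]
  unfold al ee
  simp only [Fin.isValue, if_true, Fin.val_zero, Fin.val_one, Fin.val_two, one_ne_zero, if_false]
  rw [if_neg (by decide), if_neg (by decide)]
  rw [← pow_mul, pow_add, pow_add, pow_add]
  ring

theorem four_key (ρ : ℝ) (hρ : 1 ≤ ρ) (t : ℂ) (ht : 0 < t.re) (c : ℝ) (m s : ℕ) (D : ℝ → ℂ) (B : ℝ)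
    (hD : StronglyMeasurable D) (hB : ∀ φ, ‖D φ‖ ≤ B)
    (hcoef : ∀ μ : ℕ, (1 / (2 * (Real.pi : ℂ))) * ∫ φ in (-Real.pi)..Real.pi,
        (((ρ : ℂ) * cexp (I * φ)) ^ μ)⁻¹ * D φ
      = (QP (cexp (-t)))⁻¹ ^ 2 * ∑' k : ℕ, vk (cexp (-t)) (k + s) * cexp (-t) ^ ((k + s + 1) * μ)) :
    (1 / (2 * (Real.pi : ℂ))) * ∫ φ in (-Real.pi)..Real.pi,
        (D φ * ∑' x, al (cexp (-t)) c x * (((ρ : ℂ) * cexp (I * φ)) ^ (ee m x))⁻¹)
      = (QP (cexp (-t)))⁻¹ ^ 2 * ∑' k : ℕ, sk t c m (k + s) := by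
  set q := cexp (-t) with hqd
  have hq0 : q ≠ 0 := exp_ne_zero _
  have hq : ‖q‖ < 1 := by
    rw [hqd, Complex.norm_exp, neg_re, Real.exp_lt_one_iff]
    linarith
  have hρ0 : 0 < ρ := by linarith
  rw [circ_mul ρ hρ0 D B hD hB (al q c) (ee m)
    (by
      apply Summable.of_nonneg_of_le (fun _ => by positivity) _ (al_summ hq c)
      intro x
      have h1 : (ρ ^ ee m x)⁻¹ ≤ 1 := inv_le_one_of_one_le₀ (one_le_pow₀ hρ)
      nlinarith [norm_nonneg (al q c x)])]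
  simp only [hcoef]
  have hvs : Summable fun k : ℕ => ‖vk q (k + s)‖ := by
    apply Summable.of_nonneg_of_le (fun _ => norm_nonneg _) (fun k => vk_norm hq (k + s))
    have : (fun k : ℕ => 2 * ‖q‖ ^ (k + s)) = fun k : ℕ => (2 * ‖q‖ ^ s) * ‖q‖ ^ k := by
      funext k
      rw [pow_add]
      ring
    rw [this]
    exact (summable_geometric_of_lt_one (norm_nonneg _) hq).mul_left _
  have hss : Summable fun z : (ℕ × Fin 3) × ℕ =>
      al q c z.1 * (vk q (z.2 + s) * q ^ ((z.2 + s + 1) * ee m z.1)) := by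
    apply Summable.of_norm
    apply Summable.of_nonneg_of_le (fun _ => norm_nonneg _) _
      ((al_summ hq c).mul_of_nonneg hvs (fun _ => norm_nonneg _) (fun _ => norm_nonneg _))
    intro z
    rw [norm_mul, norm_mul, norm_pow]
    have : ‖q‖ ^ ((z.2 + s + 1) * ee m z.1) ≤ 1 := pow_le_one₀ (norm_nonneg _) hq.le
    apply mul_le_mul_of_nonneg_left _ (norm_nonneg _)
    nlinarith [norm_nonneg (vk q (z.2 + s))]
  have e1 : ∀ x, al q c x * ((QP q)⁻¹ ^ 2 * ∑' k : ℕ, vk q (k + s) * q ^ ((k + s + 1) * ee m x))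
      = (QP q)⁻¹ ^ 2 * ∑' k : ℕ, al q c x * (vk q (k + s) * q ^ ((k + s + 1) * ee m x)) := by
    intro x
    rw [tsum_mul_left]
    ring
  simp only [e1]
  rw [tsum_mul_left]
  congr 1
  rw [← Summable.tsum_comm (f := fun x k => al q c x * (vk q (k + s) * q ^ ((k + s + 1) * ee m x)))
    hss]
  apply tsum_congr
  intro k
  have e2 : ∀ x, al q c x * (vk q (k + s) * q ^ ((k + s + 1) * ee m x))
      = vk q (k + s) * (al q c x * (q ^ (k + s + 1)) ^ (ee m x)) := by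
    intro x
    rw [← pow_mul]
    ring
  simp only [e2]
  rw [tsum_mul_left, al_sum hq c m (by
    rw [norm_pow]
    exact pow_le_one₀ (norm_nonneg _) hq.le)]
  unfold sk vk
  rw [← hqd]
  set K := k + s with hK
  have hx : q ^ (K + 1) ≠ 0 := pow_ne_zero _ hq0
  have e3 : (4 : ℂ) * sinh (((c : ℂ) + ((K : ℂ) + 1) * t) / 2) ^ 2
      = (Real.exp c : ℂ) * (q ^ (K + 1))⁻¹ - 2 + (Real.exp (-c) : ℂ) * q ^ (K + 1) := by
    have h1 : cexp (((c : ℂ) + ((K : ℂ) + 1) * t) / 2) * cexp (((c : ℂ) + ((K : ℂ) + 1) * t) / 2)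
        = (Real.exp c : ℂ) * (q ^ (K + 1))⁻¹ := by
      rw [← Complex.exp_add, Complex.ofReal_exp, hqd, ← Complex.exp_nat_mul, ← Complex.exp_neg,
        ← Complex.exp_add]
      congr 1
      push_cast
      ring
    have h2 : cexp (-(((c : ℂ) + ((K : ℂ) + 1) * t) / 2)) *
        cexp (-(((c : ℂ) + ((K : ℂ) + 1) * t) / 2)) = (Real.exp (-c) : ℂ) * q ^ (K + 1) := by
      rw [← Complex.exp_add, Complex.ofReal_exp, hqd, ← Complex.exp_nat_mul, ← Complex.exp_add]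
      congr 1
      push_cast
      ring
    have h3 : cexp (((c : ℂ) + ((K : ℂ) + 1) * t) / 2) *
        cexp (-(((c : ℂ) + ((K : ℂ) + 1) * t) / 2)) = 1 := by
      rw [← Complex.exp_add, add_neg_cancel, Complex.exp_zero]
    rw [Complex.sinh]
    linear_combination h1 + h2 - 2 * h3
  rw [e3]
  have e4 : q ^ ((K + 1) * (m + 1) + K * (K + 1) / 2)
      = (q ^ (K + 1)) ^ m * q ^ (K + 1) * q ^ (K * (K + 1) / 2) := by
    rw [← pow_mul, ← pow_add, ← pow_add]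
    congr 1
  have e5 : (q ^ (K + 1)) ^ 2 = q ^ (2 * (K + 1)) := by
    rw [← pow_mul]
    congr 1
    ring
  rw [e4, ← e5]
  field_simp

theorem per_shift (g : ℝ → ℂ) (hg : Function.Periodic g (2 * Real.pi)) (s : ℝ) :
    ∫ φ in (-Real.pi)..Real.pi, g (φ + s) = ∫ φ in (-Real.pi)..Real.pi, g φ := by
  rw [intervalIntegral.integral_comp_add_right]
  have h := hg.intervalIntegral_add_eq (-Real.pi + s) (-Real.pi)
  have e1 : -Real.pi + s + 2 * Real.pi = Real.pi + s := by ring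
  have e2 : -Real.pi + 2 * Real.pi = Real.pi := by ring
  rw [e1, e2] at h
  exact h

theorem circ_per (ρ : ℝ) (G : ℂ → ℂ) :
    Function.Periodic (fun φ : ℝ => G ((ρ : ℂ) * cexp (I * φ))) (2 * Real.pi) := by
  intro φ
  have : cexp (I * ((φ + 2 * Real.pi : ℝ) : ℂ)) = cexp (I * φ) := by
    have h := Complex.exp_periodic (I * φ)
    rw [← h]
    congr 1
    push_cast
    ring
  simp only [this]

/-- the integrand in terms of `ζ` -/
theorem FF_eq (κ : ℝ) (hκ : 0 ≤ κ) (t : ℂ) (ht : 0 < t.re) (c : ℝ) (m : ℕ) (φ : ℝ) :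
    FF κ t c m φ = (fun ζ : ℂ => Cp (cexp (-t)) ζ * ∑' x, al (cexp (-t)) c x * (ζ ^ (ee m x))⁻¹)
      ((Real.exp (κ * t.re) : ℂ) * cexp (I * ((φ + κ * t.im : ℝ) : ℂ))) := by
  have hq : ‖cexp (-t)‖ < 1 := by
    rw [Complex.norm_exp, neg_re, Real.exp_lt_one_iff]
    linarith
  have hζ : (Real.exp (κ * t.re) : ℂ) * cexp (I * ((φ + κ * t.im : ℝ) : ℂ))
      = cexp (I * ww κ t φ) := by
    rw [Complex.ofReal_exp, ← Complex.exp_add]
    congr 1
    unfold ww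
    have hI := Complex.I_mul_I
    nth_rewrite 3 [← Complex.re_add_im t]
    push_cast
    linear_combination ((κ : ℂ) * (t.re + t.im * I)) * hI
  simp only
  rw [hζ]
  set ζ := cexp (I * ww κ t φ) with hζd
  have hζn : ‖ζ⁻¹‖ ≤ 1 := by
    rw [← hζ, norm_inv, norm_circ _ (Real.exp_pos _)]
    apply inv_le_one_of_one_le₀
    exact Real.one_le_exp (by positivity)
  have hζ0 : ζ ≠ 0 := exp_ne_zero _
  have e0 : ∀ x, al (cexp (-t)) c x * (ζ ^ (ee m x))⁻¹ = al (cexp (-t)) c x * ζ⁻¹ ^ (ee m x) :=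
    fun x => by rw [inv_pow]
  simp only [e0]
  rw [al_sum hq c m hζn]
  unfold FF PT
  rw [← hζd]
  have e1 : cexp (-((κ : ℂ) * m * t) - I * m * φ) = ζ⁻¹ ^ m := by
    rw [hζd, ← Complex.exp_neg, ← Complex.exp_nat_mul]
    congr 1
    unfold ww
    have hI := Complex.I_mul_I
    linear_combination (-(m : ℂ) * (κ : ℂ) * t) * hI
  have e2 : cexp (-(I * ww κ t φ)) = ζ⁻¹ := by rw [hζd, Complex.exp_neg]
  have e3 : cexp (-(2 * I * ww κ t φ)) = ζ⁻¹ ^ 2 := by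
    rw [hζd, ← Complex.exp_neg, ← Complex.exp_nat_mul]
    congr 1
    push_cast
    ring
  have e4 : (4 : ℂ) * sinh (((c : ℂ) + I * ww κ t φ) / 2) ^ 2
      = (Real.exp c : ℂ) * ζ - 2 + (Real.exp (-c) : ℂ) * ζ⁻¹ := by
    have h1 : cexp (((c : ℂ) + I * ww κ t φ) / 2) * cexp (((c : ℂ) + I * ww κ t φ) / 2)
        = (Real.exp c : ℂ) * ζ := by
      rw [← Complex.exp_add, Complex.ofReal_exp, hζd, ← Complex.exp_add]
      congr 1
      ring
    have h2 : cexp (-(((c : ℂ) + I * ww κ t φ) / 2)) * cexp (-(((c : ℂ) + I * ww κ t φ) / 2))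
        = (Real.exp (-c) : ℂ) * ζ⁻¹ := by
      rw [← Complex.exp_add, Complex.ofReal_exp, hζd, ← Complex.exp_neg, ← Complex.exp_add]
      congr 1
      push_cast
      ring
    have h3 : cexp (((c : ℂ) + I * ww κ t φ) / 2) * cexp (-(((c : ℂ) + I * ww κ t φ) / 2)) = 1 := by
      rw [← Complex.exp_add, add_neg_cancel, Complex.exp_zero]
    rw [Complex.sinh]
    linear_combination h1 + h2 - 2 * h3
  rw [e1, e2, e3, e4]
  field_simp

end Pool.Agent.UR.H80
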