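import Pool.Agent.Helper21_UR.Stmts

/-! # QBIN: the finite q-binomial theorem (helper80) -/

namespace Pool.Agent.UR.H80

open Pool.Agent.Helper21_UR

theorem one_sub_pow_ne {q : ℂ} (hq : ‖q‖ < 1) {n : ℕ} (hn : n ≠ 0) : (1 : ℂ) - q ^ n ≠ 0 := by
  intro h
  have h1 : q ^ n = 1 := (sub_eq_zero.1 h).symm
  have h2 : ‖q ^ n‖ < 1 := by
    rw [norm_pow]
    exact pow_lt_one₀ (norm_nonneg _) hq hn
  rw [h1] at h2
  simp at h2

theorem qp_ne {q : ℂ} (hq : ‖q‖ < 1) (n : ℕ) : qp q n ≠ 0 := by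
  unfold qp
  rw [Finset.prod_ne_zero_iff]
  intro j _
  exact one_sub_pow_ne hq (Nat.succ_ne_zero j)

theorem qp_succ (q : ℂ) (n : ℕ) : qp q (n + 1) = qp q n * (1 - q ^ (n + 1)) := by
  unfold qp
  rw [Finset.prod_range_succ]

theorem qp_zero (q : ℂ) : qp q 0 = 1 := by
  unfold qp
  simp

theorem tri_succ (j : ℕ) : (j + 1) * (j + 1 - 1) / 2 = j * (j - 1) / 2 + j := by
  rcases Nat.eq_zero_or_pos j with h | h
  · subst h
    rfl
  · obtain ⟨k, rfl⟩ : ∃ k, j = k + 1 := ⟨j - 1, by omega⟩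
    have h1 : (k + 1 + 1) * (k + 1 + 1 - 1) = (k + 1) * (k + 1 - 1) + 2 * (k + 1) := by
      rw [Nat.add_sub_cancel, Nat.add_sub_cancel]
      ring
    rw [h1, Nat.add_mul_div_left _ _ (by norm_num)]

theorem qbin : QbinStatement := by
  intro q x hq n
  induction n with
  | zero => simp [qp_zero]
  | succ n ih =>
    rw [Finset.prod_range_succ, ih]
    rw [Finset.sum_range_succ' _ (n + 1)]
    have h0 : (-1 : ℂ) ^ 0 * q ^ (0 * (0 - 1) / 2) * x ^ 0 *
        (qp q (n + 1) / (qp q 0 * qp q (n + 1 - 0))) = 1 := by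
      rw [qp_zero, Nat.sub_zero, one_mul, div_self (qp_ne hq _)]
      simp
    have hlast : (-1 : ℂ) ^ (n + 1) * q ^ ((n + 1) * (n + 1 - 1) / 2) * x ^ (n + 1) *
        (qp q (n + 1) / (qp q (n + 1) * qp q (n + 1 - (n + 1))))
        = -(x * q ^ n) * ((-1) ^ n * q ^ (n * (n - 1) / 2) * x ^ n *
          (qp q n / (qp q n * qp q (n - n)))) := by
      rw [Nat.sub_self, Nat.sub_self, qp_zero, mul_one, mul_one, div_self (qp_ne hq _),
        div_self (qp_ne hq _), tri_succ, pow_succ, pow_add, pow_succ]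
      ring
    have hmid : ∀ j ∈ Finset.range n, (-1 : ℂ) ^ (j + 1) * q ^ ((j + 1) * (j + 1 - 1) / 2) *
        x ^ (j + 1) * (qp q (n + 1) / (qp q (j + 1) * qp q (n + 1 - (j + 1))))
        = (-1 : ℂ) ^ (j + 1) * q ^ ((j + 1) * (j + 1 - 1) / 2) *
        x ^ (j + 1) * (qp q n / (qp q (j + 1) * qp q (n - (j + 1))))
        + -(x * q ^ n) * ((-1) ^ j * q ^ (j * (j - 1) / 2) * x ^ j *
          (qp q n / (qp q j * qp q (n - j)))) := by
      intro j hj
      have hj' := Finset.mem_range.1 hj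
      obtain ⟨k, hk⟩ : ∃ k, n = j + 1 + k := ⟨n - (j + 1), by omega⟩
      have e1 : n + 1 - (j + 1) = k + 1 := by omega
      have e2 : n - (j + 1) = k := by omega
      have e3 : n - j = k + 1 := by omega
      rw [e1, e2, e3, tri_succ, qp_succ q n, qp_succ q j, qp_succ q k]
      have a1 := qp_ne hq n
      have a2 := qp_ne hq j
      have a3 := qp_ne hq k
      have a4 := one_sub_pow_ne hq (Nat.succ_ne_zero j)
      have a5 := one_sub_pow_ne hq (Nat.succ_ne_zero k)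
      have hn : q ^ n = q ^ j * q ^ (k + 1) := by
        rw [hk]
        ring
      have hn1 : q ^ (n + 1) = q ^ (j + 1) * q ^ (k + 1) := by
        rw [hk]
        ring
      rw [hn, hn1]
      have a4' : (1 : ℂ) - q ^ (j + 1) ≠ 0 := a4
      have a5' : (1 : ℂ) - q ^ (k + 1) ≠ 0 := a5
      field_simp
      ring
    have hsum : ∑ j ∈ Finset.range n, (-1 : ℂ) ^ j * q ^ (j * (j - 1) / 2) * x ^ j *
          (qp q n / (qp q j * qp q (n - j))) + (-1) ^ n * q ^ (n * (n - 1) / 2) * x ^ n *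
          (qp q n / (qp q n * qp q (n - n)))
        = ∑ j ∈ Finset.range n, (-1 : ℂ) ^ (j + 1) * q ^ ((j + 1) * (j + 1 - 1) / 2) *
          x ^ (j + 1) * (qp q n / (qp q (j + 1) * qp q (n - (j + 1)))) + 1 := by
      have h0' : (-1 : ℂ) ^ 0 * q ^ (0 * (0 - 1) / 2) * x ^ 0 *
          (qp q n / (qp q 0 * qp q (n - 0))) = 1 := by
        rw [qp_zero, Nat.sub_zero, one_mul, div_self (qp_ne hq _)]
        simp
      have e1 := Finset.sum_range_succ (fun j => (-1 : ℂ) ^ j * q ^ (j * (j - 1) / 2) * x ^ j *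
          (qp q n / (qp q j * qp q (n - j)))) n
      have e2 := Finset.sum_range_succ' (fun j => (-1 : ℂ) ^ j * q ^ (j * (j - 1) / 2) * x ^ j *
          (qp q n / (qp q j * qp q (n - j)))) n
      rw [h0'] at e2
      exact e1.symm.trans e2
    have hR := Finset.sum_range_succ (fun k => (-1 : ℂ) ^ (k + 1) *
      q ^ ((k + 1) * (k + 1 - 1) / 2) * x ^ (k + 1) *
          (qp q (n + 1) / (qp q (k + 1) * qp q (n + 1 - (k + 1))))) n
    rw [hR, h0, hlast, Finset.sum_congr rfl hmid, Finset.sum_add_distrib, ← Finset.mul_sum]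
    rw [Finset.sum_range_succ]
    linear_combination hsum

end Pool.Agent.UR.H80
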