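import Pool.Agent.Helper80_UR.Circ

/-! # YCOEF: the Laurent coefficients of `C` (helper80) -/

namespace Pool.Agent.UR.H80

open Pool.Agent.Helper21_UR Filter Topology Complex MeasureTheory intervalIntegral

theorem hh_summ {q : ℂ} (hq : ‖q‖ < 1) (c : ℕ) {z : ℂ} (hz : ‖z‖ * ‖q‖ < 1) :
    Summable fun r : ℕ => ‖hh q c r * z ^ r‖ := by
  obtain ⟨K, hK, hb⟩ := hh_bound hq c
  apply Summable.of_nonneg_of_le (fun _ => norm_nonneg _) _
    ((summable_geometric_of_lt_one (by positivity) hz).mul_left K)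
  intro r
  rw [norm_mul, norm_pow, mul_pow]
  calc ‖hh q c r‖ * ‖z‖ ^ r ≤ (K * ‖q‖ ^ r) * ‖z‖ ^ r := by
        exact mul_le_mul_of_nonneg_right (hb r) (by positivity)
    _ = K * (‖z‖ ^ r * ‖q‖ ^ r) := by ring

theorem one_sub_ne {q z : ℂ} (hq : ‖q‖ < 1) (hz : ‖z‖ * ‖q‖ < 1) (j : ℕ) :
    1 - z * q ^ (j + 1) ≠ 0 := by
  intro h
  have h1 : z * q ^ (j + 1) = 1 := (sub_eq_zero.1 h).symm
  have := geo_le hq z j
  rw [h1, norm_one] at this
  linarith

theorem hh_gen {q : ℂ} (hq : ‖q‖ < 1) (c : ℕ) {z : ℂ} (hz : ‖z‖ * ‖q‖ < 1) :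
    ∑' r : ℕ, hh q c r * z ^ r = ∏ j ∈ Finset.range c, (1 - z * q ^ (j + 1))⁻¹ := by
  induction c with
  | zero =>
    rw [Finset.prod_range_zero, tsum_eq_single 0]
    · rw [hh00, pow_zero, mul_one]
    · intro r hr
      obtain ⟨k, rfl⟩ := Nat.exists_eq_succ_of_ne_zero hr
      rw [Nat.succ_eq_add_one, hh0s, zero_mul]
  | succ c ih =>
    rw [Finset.prod_range_succ, ← ih]
    have s1 := (hh_summ hq (c + 1) hz).of_norm
    have s0 := (hh_summ hq c hz).of_norm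
    have h1 : ∑' r : ℕ, hh q (c + 1) r * z ^ r = hh q (c + 1) 0 * z ^ 0 +
        ∑' r : ℕ, hh q (c + 1) (r + 1) * z ^ (r + 1) := s1.tsum_eq_zero_add
    have h0 : ∑' r : ℕ, hh q c r * z ^ r = hh q c 0 * z ^ 0 +
        ∑' r : ℕ, hh q c (r + 1) * z ^ (r + 1) := s0.tsum_eq_zero_add
    have ht : ∀ r : ℕ, hh q (c + 1) (r + 1) * z ^ (r + 1)
        = hh q c (r + 1) * z ^ (r + 1) + (z * q ^ (c + 1)) * (hh q (c + 1) r * z ^ r) := by
      intro r
      rw [hhss, pow_succ]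
      ring
    have s0' : Summable fun r : ℕ => hh q c (r + 1) * z ^ (r + 1) := (summable_nat_add_iff 1).2 s0
    have h2 : ∑' r : ℕ, hh q (c + 1) (r + 1) * z ^ (r + 1) =
        ∑' r : ℕ, hh q c (r + 1) * z ^ (r + 1) +
          (z * q ^ (c + 1)) * ∑' r : ℕ, hh q (c + 1) r * z ^ r := by
      rw [tsum_congr ht, Summable.tsum_add s0' (s1.mul_left _), tsum_mul_left]
    have hne := one_sub_ne hq hz c
    rw [hh_zero] at h0 h1
    rw [eq_mul_inv_iff_mul_eq₀ hne]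
    linear_combination h1 + h2 - h0

/-- Laurent coefficient of the finite product -/
theorem finite_coef {q : ℂ} (hq : ‖q‖ < 1) (ρ : ℝ) (hρ : 0 < ρ) (h1 : ρ * ‖q‖ < 1)
    (h2 : ρ⁻¹ * ‖q‖ < 1) (c μ : ℕ) :
    (1 / (2 * (Real.pi : ℂ))) * ∫ φ in (-Real.pi)..Real.pi,
        (((ρ : ℂ) * cexp (I * φ)) ^ μ)⁻¹ * Cf q ((ρ : ℂ) * cexp (I * φ)) c = Yf q c μ := by
  have hn1 : ∀ φ : ℝ, ‖(ρ : ℂ) * cexp (I * φ)‖ * ‖q‖ < 1 := fun φ => by
    rw [norm_circ ρ hρ]; exact h1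
  have hn2 : ∀ φ : ℝ, ‖((ρ : ℂ) * cexp (I * φ))⁻¹‖ * ‖q‖ < 1 := fun φ => by
    rw [norm_inv, norm_circ ρ hρ]; exact h2
  have sA : Summable fun r : ℕ => ‖hh q c r‖ * ρ ^ r := by
    have := hh_summ hq c (z := (ρ : ℂ)) (by
      rw [Complex.norm_real, Real.norm_of_nonneg hρ.le]; exact h1)
    refine this.congr fun r => ?_
    rw [norm_mul, norm_pow, Complex.norm_real, Real.norm_of_nonneg hρ.le]
  have sB : Summable fun r : ℕ => ‖hh q c r‖ * ρ⁻¹ ^ r := by
    have := hh_summ hq c (z := ((ρ⁻¹ : ℝ) : ℂ)) (by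
      rw [Complex.norm_real, Real.norm_of_nonneg (inv_nonneg.2 hρ.le)]; exact h2)
    refine this.congr fun r => ?_
    rw [norm_mul, norm_pow, Complex.norm_real, Real.norm_of_nonneg (inv_nonneg.2 hρ.le)]
  have key := circ_sum ρ hρ (fun x : ℕ × ℕ => hh q c x.1 * hh q c x.2)
    (fun x => (x.1 : ℤ) - x.2 - μ)
    (by
      have h := (sA.mul_of_nonneg sB (fun r => by positivity) (fun r => by positivity)).mul_right
        ((ρ ^ μ)⁻¹)
      refine h.congr fun x => ?_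
      rw [norm_mul, zpow_sub₀ hρ.ne', zpow_sub₀ hρ.ne', zpow_natCast, zpow_natCast, zpow_natCast,
        inv_pow]
      ring)
    (fun φ => (((ρ : ℂ) * cexp (I * φ)) ^ μ)⁻¹ * Cf q ((ρ : ℂ) * cexp (I * φ)) c)
    (by
      intro φ
      have hne := circ_ne ρ hρ φ
      set ζ := (ρ : ℂ) * cexp (I * φ) with hζ
      have e1 : Cf q ζ c = (∑' r : ℕ, hh q c r * ζ ^ r) * ∑' r : ℕ, hh q c r * ζ⁻¹ ^ r := by
        rw [hh_gen hq c (hn1 φ), hh_gen hq c (hn2 φ), ← Finset.prod_mul_distrib]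
        unfold Cf
        apply Finset.prod_congr rfl
        intro j _
        rw [mul_inv]
      rw [e1, tsum_mul_tsum_of_summable_norm (hh_summ hq c (hn1 φ)) (hh_summ hq c (hn2 φ)),
        ← tsum_mul_left]
      congr 1
      funext x
      rw [zpow_sub₀ hne, zpow_sub₀ hne, zpow_natCast, zpow_natCast, zpow_natCast, inv_pow]
      ring)
  rw [key]
  unfold Yf
  have hinj : Function.Injective (fun s : ℕ => ((s + μ, s) : ℕ × ℕ)) := by
    intro s t h
    exact (Prod.mk.inj h).2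
  rw [← hinj.tsum_eq]
  · apply tsum_congr
    intro s
    rw [if_pos (by push_cast; ring)]
    ring
  · intro x hx
    rw [Function.mem_support] at hx
    have h : (x.1 : ℤ) - x.2 - μ = 0 := by
      by_contra h
      rw [if_neg h] at hx
      simp at hx
    refine ⟨x.2, ?_⟩
    have : x.1 = x.2 + μ := by omega
    exact Prod.ext this.symm rfl

theorem Cf_cont {q : ℂ} (hq : ‖q‖ < 1) (ρ : ℝ) (hρ : 0 < ρ) (h1 : ρ * ‖q‖ < 1)
    (h2 : ρ⁻¹ * ‖q‖ < 1) (c μ : ℕ) : Continuous fun φ : ℝ =>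
      (((ρ : ℂ) * cexp (I * φ)) ^ μ)⁻¹ * Cf q ((ρ : ℂ) * cexp (I * φ)) c := by
  unfold Cf
  apply Continuous.mul
  · apply Continuous.inv₀ (by fun_prop)
    intro φ
    exact pow_ne_zero _ (circ_ne ρ hρ φ)
  · apply continuous_finsetProd
    intro j _
    apply Continuous.inv₀
    · apply Continuous.mul
      · fun_prop
      · apply continuous_const.sub
        apply Continuous.mul _ continuous_const
        apply Continuous.inv₀ (by fun_prop)
        exact circ_ne ρ hρ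
    · intro φ
      apply mul_ne_zero
      · apply one_sub_ne hq
        rw [norm_circ ρ hρ]; exact h1
      · apply one_sub_ne hq
        rw [norm_inv, norm_circ ρ hρ]; exact h2

/-- the coefficient sequence -/
theorem Yf_tend (hY : YfStatement) {q : ℂ} (hq0 : q ≠ 0) (hq : ‖q‖ < 1) (μ : ℕ) :
    Tendsto (fun c => Yf q (c + 1) μ) atTop (𝓝 ((QP q)⁻¹ ^ 2 *
      ∑' k : ℕ, (-1) ^ k * q ^ ((k + 1) * μ + k * (k + 1) / 2) * (1 - q ^ (k + 1)))) := by
  obtain ⟨M, hM, hMb⟩ := bdd_of_tend (qp_inv_tend hq)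
  have e1 : ∀ c, Yf q (c + 1) μ = ∑' i : ℕ, if i < c + 1 then Ac q (c + 1) i * q ^ ((i + 1) * μ)
      else 0 := by
    intro c
    rw [hY q hq0 hq (c + 1) μ (by omega), tsum_eq_sum (s := Finset.range (c + 1))]
    · apply Finset.sum_congr rfl
      intro i hi
      rw [if_pos (Finset.mem_range.1 hi)]
    · intro i hi
      rw [if_neg (fun h => hi (Finset.mem_range.2 h))]
  simp only [e1]
  rw [← tsum_mul_left]
  apply tendsto_tsum_of_dominated_convergence (bound := fun i : ℕ => (2 * M ^ 2) * ‖q‖ ^ i)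
    ((summable_geometric_of_lt_one (norm_nonneg _) hq).mul_left _)
  · intro i
    have hlim : Tendsto (fun c : ℕ => (-1 : ℂ) ^ i * q ^ (i * (i + 1) / 2) * (1 - q ^ (i + 1)) *
        ((qp q (c + 1 - (i + 1)))⁻¹ * (qp q (c + 1 + i + 1))⁻¹) * q ^ ((i + 1) * μ)) atTop
        (𝓝 ((-1 : ℂ) ^ i * q ^ (i * (i + 1) / 2) * (1 - q ^ (i + 1)) *
        ((QP q)⁻¹ * (QP q)⁻¹) * q ^ ((i + 1) * μ))) := by
      apply Tendsto.mul_const
      apply Tendsto.const_mul
      apply Tendsto.mul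
      · apply (qp_inv_tend hq).comp
        have : (fun c : ℕ => c + 1 - (i + 1)) = fun c => c - i := by funext c; omega
        rw [this]
        exact tendsto_sub_atTop_nat i
      · apply (qp_inv_tend hq).comp
        have : (fun c : ℕ => c + 1 + i + 1) = fun c => c + (i + 2) := by funext c; omega
        rw [this]
        exact tendsto_add_atTop_nat (i + 2)
    have hgoal : (QP q)⁻¹ ^ 2 * ((-1) ^ i * q ^ ((i + 1) * μ + i * (i + 1) / 2) *
        (1 - q ^ (i + 1))) = (-1 : ℂ) ^ i * q ^ (i * (i + 1) / 2) * (1 - q ^ (i + 1)) *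
        ((QP q)⁻¹ * (QP q)⁻¹) * q ^ ((i + 1) * μ) := by
      rw [pow_add]
      ring
    rw [hgoal]
    apply hlim.congr'
    filter_upwards [eventually_ge_atTop i] with c hc
    rw [if_pos (by omega)]
    unfold Ac
    rw [div_eq_mul_inv, mul_inv]
  · apply Eventually.of_forall
    intro c i
    split_ifs with h
    · unfold Ac
      rw [div_eq_mul_inv, mul_inv]
      rw [norm_mul, norm_mul, norm_mul, norm_mul, norm_mul, norm_pow, norm_pow, norm_neg,
        norm_one, one_pow, one_mul, norm_pow]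
      have b1 : ‖q‖ ^ (i * (i + 1) / 2) ≤ ‖q‖ ^ i := by
        apply pow_le_pow_of_le_one (norm_nonneg _) hq.le
        have := two_tri i
        rcases Nat.eq_zero_or_pos i with h | h
        · omega
        · nlinarith
      have b2 : ‖(1 : ℂ) - q ^ (i + 1)‖ ≤ 2 := by
        refine (norm_sub_le _ _).trans ?_
        rw [norm_one, norm_pow]
        have : ‖q‖ ^ (i + 1) ≤ 1 := pow_le_one₀ (norm_nonneg _) hq.le
        linarith
      have b3 : ‖q‖ ^ ((i + 1) * μ) ≤ 1 := pow_le_one₀ (norm_nonneg _) hq.le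
      have b4 := hMb (c + 1 - (i + 1))
      have b5 := hMb (c + 1 + i + 1)
      calc ‖q‖ ^ (i * (i + 1) / 2) * ‖(1 : ℂ) - q ^ (i + 1)‖ *
          (‖(qp q (c + 1 - (i + 1)))⁻¹‖ * ‖(qp q (c + 1 + i + 1))⁻¹‖) * ‖q‖ ^ ((i + 1) * μ)
          ≤ ‖q‖ ^ i * 2 * (M * M) * 1 := by gcongr
        _ = 2 * M ^ 2 * ‖q‖ ^ i := by ring
    · rw [norm_zero]
      positivity

theorem ycoef (hY : YfStatement) : YcoefStatement := by
  intro q ρ μ hq0 hq hρ1 hρ2
  have hqn : 0 < ‖q‖ := norm_pos_iff.2 hq0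
  have hρ : 0 < ρ := hqn.trans hρ1
  have h1 : ρ * ‖q‖ < 1 := by
    rw [← lt_div_iff₀ hqn, one_div]
    exact hρ2
  have h2 : ρ⁻¹ * ‖q‖ < 1 := by
    rw [inv_mul_lt_iff₀ hρ, mul_one]
    exact hρ1
  obtain ⟨B, hB, hBb⟩ := bdd_of_tend (Cf_tend (q := (‖q‖ : ℂ)) (ζ := (ρ : ℂ))
    (by rw [Complex.norm_real, norm_norm]; exact hq)
    (by rw [Complex.norm_real, Complex.norm_real, norm_norm, Real.norm_of_nonneg hρ.le]; exact h1)
    (by rw [norm_inv, Complex.norm_real, Complex.norm_real, norm_norm,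
          Real.norm_of_nonneg hρ.le]; exact h2))
  have hlim := intervalIntegral.tendsto_integral_filter_of_dominated_convergence (μ := volume)
    (a := -Real.pi) (b := Real.pi) (l := atTop)
    (F := fun (c : ℕ) (φ : ℝ) =>
      (((ρ : ℂ) * cexp (I * φ)) ^ μ)⁻¹ * Cf q ((ρ : ℂ) * cexp (I * φ)) (c + 1))
    (f := fun φ : ℝ => (((ρ : ℂ) * cexp (I * φ)) ^ μ)⁻¹ * Cp q ((ρ : ℂ) * cexp (I * φ)))
    (fun _ => (ρ ^ μ)⁻¹ * B)
    (Eventually.of_forall fun c => (Cf_cont hq ρ hρ h1 h2 (c + 1) μ).aestronglyMeasurable)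
    (Eventually.of_forall fun c => ae_of_all _ fun φ _ => by
      rw [norm_mul, norm_inv, norm_pow, norm_circ ρ hρ]
      apply mul_le_mul_of_nonneg_left _ (by positivity)
      exact (Cf_norm hq ρ hρ (norm_circ ρ hρ φ) h1 h2 (c + 1)).trans (hBb _))
    (intervalIntegrable_const)
    (ae_of_all _ fun φ _ => by
      apply Tendsto.const_mul
      exact (Cf_tend hq (by rw [norm_circ ρ hρ]; exact h1)
        (by rw [norm_inv, norm_circ ρ hρ]; exact h2)).comp (tendsto_add_atTop_nat 1))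
  have hlim2 := hlim.const_mul (1 / (2 * (Real.pi : ℂ)))
  have hfc : ∀ c : ℕ, (1 / (2 * (Real.pi : ℂ))) * ∫ φ in (-Real.pi)..Real.pi,
      (((ρ : ℂ) * cexp (I * φ)) ^ μ)⁻¹ * Cf q ((ρ : ℂ) * cexp (I * φ)) (c + 1)
      = Yf q (c + 1) μ := fun c => finite_coef hq ρ hρ h1 h2 (c + 1) μ
  simp only [hfc] at hlim2
  exact tendsto_nhds_unique hlim2 (Yf_tend hY hq0 hq μ)

end Pool.Agent.UR.H80
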