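import Pool.Agent.Helper80_UR.Yf0

/-! # YF: partial fraction formula for `Y` (helper80) -/

namespace Pool.Agent.UR.H80

open Pool.Agent.Helper21_UR Filter Topology

theorem hh00 (q : ℂ) : hh q 0 0 = 1 := by
  rw [hh]

theorem hh0s (q : ℂ) (r : ℕ) : hh q 0 (r + 1) = 0 := by
  rw [hh]

theorem hhs0 (q : ℂ) (c : ℕ) : hh q (c + 1) 0 = 1 := by
  rw [hh]

theorem hh_zero (q : ℂ) (c : ℕ) : hh q c 0 = 1 := by
  cases c
  · exact hh00 q
  · exact hhs0 q _

theorem hhss (q : ℂ) (c r : ℕ) :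
    hh q (c + 1) (r + 1) = hh q c (r + 1) + q ^ (c + 1) * hh q (c + 1) r := by
  rw [hh]

theorem hh1 (q : ℂ) (r : ℕ) : hh q 1 r = q ^ r := by
  induction r with
  | zero => rw [hhs0, pow_zero]
  | succ r ih => rw [hhss, hh0s, ih, zero_add, zero_add, pow_one, pow_succ, mul_comm]

/-- the coefficients are `O(q^r)` -/
theorem hh_bound {q : ℂ} (hq : ‖q‖ < 1) (c : ℕ) : ∃ K : ℝ, 0 < K ∧ ∀ r, ‖hh q c r‖ ≤ K * ‖q‖ ^ r := by
  induction c with
  | zero =>
    refine ⟨1, one_pos, fun r => ?_⟩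
    cases r with
    | zero => simp [hh00]
    | succ r =>
      rw [hh0s, norm_zero]
      positivity
  | succ c ih =>
    rcases Nat.eq_zero_or_pos c with h | h
    · subst h
      exact ⟨1, one_pos, fun r => by rw [hh1, norm_pow, one_mul]⟩
    · obtain ⟨K, hK, hb⟩ := ih
      have h1 : ‖q‖ ^ c < 1 := pow_lt_one₀ (norm_nonneg _) hq (by omega)
      have h2 : 0 < 1 - ‖q‖ ^ c := by linarith
      refine ⟨max 1 (K / (1 - ‖q‖ ^ c)), by positivity, fun r => ?_⟩
      set K' := max 1 (K / (1 - ‖q‖ ^ c)) with hK'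
      have h3 : K ≤ K' * (1 - ‖q‖ ^ c) := by
        rw [← div_le_iff₀ h2]
        exact le_max_right _ _
      induction r with
      | zero =>
        rw [hhs0, norm_one, pow_zero, mul_one]
        exact le_max_left _ _
      | succ r ihr =>
        rw [hhss]
        calc ‖hh q c (r + 1) + q ^ (c + 1) * hh q (c + 1) r‖
            ≤ ‖hh q c (r + 1)‖ + ‖q ^ (c + 1) * hh q (c + 1) r‖ := norm_add_le _ _
          _ ≤ K * ‖q‖ ^ (r + 1) + ‖q‖ ^ (c + 1) * (K' * ‖q‖ ^ r) := by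
              rw [norm_mul, norm_pow]
              exact add_le_add (hb _) (mul_le_mul_of_nonneg_left ihr (by positivity))
          _ = (K + K' * ‖q‖ ^ c) * ‖q‖ ^ (r + 1) := by ring
          _ ≤ K' * ‖q‖ ^ (r + 1) := by
              apply mul_le_mul_of_nonneg_right _ (by positivity)
              nlinarith

theorem sum_hh {q : ℂ} (hq : ‖q‖ < 1) (c m : ℕ) :
    Summable (fun r : ℕ => ‖hh q c r * hh q c (r + m)‖) ∧
    ∃ B : ℝ, ∀ m, ‖Yf q c m‖ ≤ B := by
  obtain ⟨K, hK, hb⟩ := hh_bound hq c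
  have hg : Summable (fun r : ℕ => (K * K) * ‖q‖ ^ r) :=
    (summable_geometric_of_lt_one (norm_nonneg _) hq).mul_left _
  have hle : ∀ m r, ‖hh q c r * hh q c (r + m)‖ ≤ (K * K) * ‖q‖ ^ r := by
    intro m r
    rw [norm_mul]
    have h1 : ‖hh q c (r + m)‖ ≤ K := by
      refine (hb _).trans ?_
      have : ‖q‖ ^ (r + m) ≤ 1 := pow_le_one₀ (norm_nonneg _) hq.le
      nlinarith
    calc ‖hh q c r‖ * ‖hh q c (r + m)‖ ≤ (K * ‖q‖ ^ r) * K :=
          mul_le_mul (hb _) h1 (norm_nonneg _) (by positivity)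
      _ = (K * K) * ‖q‖ ^ r := by ring
  refine ⟨Summable.of_nonneg_of_le (fun _ => norm_nonneg _) (hle m) hg,
    ∑' r, (K * K) * ‖q‖ ^ r, fun m => ?_⟩
  exact tsum_of_norm_bounded hg.hasSum (hle m)

theorem summ {q : ℂ} (hq : ‖q‖ < 1) (c m : ℕ) :
    Summable (fun r : ℕ => hh q c r * hh q c (r + m)) := (sum_hh hq c m).1.of_norm

/-- recursion for `Y`, `m ≥ 1` -/
theorem yrec {q : ℂ} (hq : ‖q‖ < 1) (c m : ℕ) :
    Yf q c (m + 1) = (1 + (q ^ (c + 1)) ^ 2) * Yf q (c + 1) (m + 1) -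
      q ^ (c + 1) * (Yf q (c + 1) m + Yf q (c + 1) (m + 2)) := by
  set p := q ^ (c + 1) with hp
  have hs := fun m => summ hq (c + 1) m
  have s0 := summ hq c (m + 1)
  unfold Yf
  rw [s0.tsum_eq_zero_add, (hs (m + 1)).tsum_eq_zero_add]
  have hm : ∑' r : ℕ, hh q (c + 1) r * hh q (c + 1) (r + m)
      = hh q (c + 1) 0 * hh q (c + 1) (0 + m) +
        ∑' r : ℕ, hh q (c + 1) (r + 1) * hh q (c + 1) (r + 1 + m) := (hs m).tsum_eq_zero_add
  -- the termwise identity
  have ht : ∀ r : ℕ, hh q c (r + 1) * hh q c (r + 1 + (m + 1))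
      = hh q (c + 1) (r + 1) * hh q (c + 1) (r + 1 + (m + 1))
        - p * (hh q (c + 1) (r + 1) * hh q (c + 1) (r + 1 + m))
        - p * (hh q (c + 1) r * hh q (c + 1) (r + (m + 2)))
        + p ^ 2 * (hh q (c + 1) r * hh q (c + 1) (r + (m + 1))) := by
    intro r
    have h1 : hh q c (r + 1) = hh q (c + 1) (r + 1) - p * hh q (c + 1) r := by
      rw [hhss]
      ring
    have h2 : hh q c (r + 1 + (m + 1)) = hh q (c + 1) (r + 1 + (m + 1))
        - p * hh q (c + 1) (r + 1 + m) := by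
      have := hhss q c (r + 1 + m)
      rw [show r + 1 + (m + 1) = r + 1 + m + 1 from rfl, this]
      ring
    rw [h1, h2, show r + (m + 2) = r + 1 + (m + 1) by ring, show r + (m + 1) = r + 1 + m by ring]
    ring
  have s1 : Summable fun r : ℕ => hh q (c + 1) (r + 1) * hh q (c + 1) (r + 1 + (m + 1)) :=
    (summable_nat_add_iff 1).2 (hs (m + 1))
  have s2 : Summable fun r : ℕ => hh q (c + 1) (r + 1) * hh q (c + 1) (r + 1 + m) :=
    (summable_nat_add_iff 1).2 (hs m)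
  rw [tsum_congr ht, Summable.tsum_add ((s1.sub (s2.mul_left p)).sub ((hs (m + 2)).mul_left p))
    ((hs (m + 1)).mul_left _), Summable.tsum_sub (s1.sub (s2.mul_left p)) ((hs (m + 2)).mul_left p),
    Summable.tsum_sub s1 (s2.mul_left p), tsum_mul_left, tsum_mul_left, tsum_mul_left, hm]
  have e0 : hh q c 0 * hh q c (0 + (m + 1)) = hh q (c + 1) 0 * hh q (c + 1) (0 + (m + 1))
      - p * (hh q (c + 1) 0 * hh q (c + 1) (0 + m)) := by
    rw [hh_zero, hh_zero, Nat.zero_add, Nat.zero_add, hhss]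
    ring
  rw [e0]
  have e1 : ∑' r : ℕ, hh q (c + 1) r * hh q (c + 1) (r + (m + 1))
      = hh q (c + 1) 0 * hh q (c + 1) (0 + (m + 1)) +
        ∑' r : ℕ, hh q (c + 1) (r + 1) * hh q (c + 1) (r + 1 + (m + 1)) :=
    (hs (m + 1)).tsum_eq_zero_add
  rw [e1]
  ring

/-- recursion for `Y`, `m = 0` -/
theorem yrec0 {q : ℂ} (hq : ‖q‖ < 1) (c : ℕ) :
    Yf q c 0 = (1 + (q ^ (c + 1)) ^ 2) * Yf q (c + 1) 0 - 2 * q ^ (c + 1) * Yf q (c + 1) 1 := by
  set p := q ^ (c + 1) with hp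
  have hs := fun m => summ hq (c + 1) m
  have s0 := summ hq c 0
  unfold Yf
  rw [s0.tsum_eq_zero_add]
  have ht : ∀ r : ℕ, hh q c (r + 1) * hh q c (r + 1 + 0)
      = hh q (c + 1) (r + 1) * hh q (c + 1) (r + 1 + 0)
        - 2 * p * (hh q (c + 1) r * hh q (c + 1) (r + 1))
        + p ^ 2 * (hh q (c + 1) r * hh q (c + 1) (r + 0)) := by
    intro r
    have h1 : hh q c (r + 1) = hh q (c + 1) (r + 1) - p * hh q (c + 1) r := by
      rw [hhss]
      ring
    rw [Nat.add_zero, Nat.add_zero, h1]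
    ring_nf
  have s1 : Summable fun r : ℕ => hh q (c + 1) (r + 1) * hh q (c + 1) (r + 1 + 0) :=
    (summable_nat_add_iff 1).2 (hs 0)
  rw [tsum_congr ht, Summable.tsum_add (s1.sub ((hs 1).mul_left _)) ((hs 0).mul_left _),
    Summable.tsum_sub s1 ((hs 1).mul_left _), tsum_mul_left, tsum_mul_left]
  have e1 : ∑' r : ℕ, hh q (c + 1) r * hh q (c + 1) (r + 0)
      = hh q (c + 1) 0 * hh q (c + 1) (0 + 0) +
        ∑' r : ℕ, hh q (c + 1) (r + 1) * hh q (c + 1) (r + 1 + 0) := (hs 0).tsum_eq_zero_add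
  rw [e1]
  have e2 : hh q c 0 * hh q c (0 + 0) = 1 := by rw [Nat.add_zero, hh_zero, mul_one]
  have e3 : hh q (c + 1) 0 * hh q (c + 1) (0 + 0) = 1 := by rw [Nat.add_zero, hh_zero, mul_one]
  rw [e2, e3]
  ring

/-- the right side -/
noncomputable def R (q : ℂ) (c m : ℕ) : ℂ := ∑ i ∈ Finset.range c, Ac q c i * q ^ ((i + 1) * m)

theorem Ac_step {q : ℂ} (hq : ‖q‖ < 1) {c i : ℕ} (hi : i < c) :
    Ac q (c + 1) i * ((1 - q ^ (c - i)) * (1 - q ^ (c + 1 + i + 1))) = Ac q c i := by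
  unfold Ac
  have e1 : c + 1 - (i + 1) = (c - (i + 1)) + 1 := by omega
  have e2 : c + 1 + i + 1 = (c + i + 1) + 1 := by omega
  rw [e1, e2, qp_succ, qp_succ]
  have e3 : c - (i + 1) + 1 = c - i := by omega
  rw [e3]
  have a1 := qp_ne hq (c - (i + 1))
  have a2 := qp_ne hq (c + i + 1)
  have a3 : (1 : ℂ) - q ^ (c - i) ≠ 0 := one_sub_pow_ne hq (by omega)
  have a4 : (1 : ℂ) - q ^ (c + i + 1 + 1) ≠ 0 := one_sub_pow_ne hq (by omega)
  field_simp

theorem rrec {q : ℂ} (hq : ‖q‖ < 1) (c m : ℕ) :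
    R q c (m + 1) = (1 + (q ^ (c + 1)) ^ 2) * R q (c + 1) (m + 1) -
      q ^ (c + 1) * (R q (c + 1) m + R q (c + 1) (m + 2)) := by
  unfold R
  rw [← Finset.sum_add_distrib, Finset.mul_sum, Finset.mul_sum, ← Finset.sum_sub_distrib,
    Finset.sum_range_succ]
  have hlast : (1 + (q ^ (c + 1)) ^ 2) * (Ac q (c + 1) c * q ^ ((c + 1) * (m + 1)))
      - q ^ (c + 1) * (Ac q (c + 1) c * q ^ ((c + 1) * m) + Ac q (c + 1) c * q ^ ((c + 1) * (m + 2)))
      = 0 := by
    have h1 : q ^ ((c + 1) * (m + 1)) = q ^ ((c + 1) * m) * q ^ (c + 1) := by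
      rw [← pow_add]; congr 1
    have h2 : q ^ ((c + 1) * (m + 2)) = q ^ ((c + 1) * m) * q ^ (c + 1) * q ^ (c + 1) := by
      rw [← pow_add, ← pow_add]; congr 1
    rw [h1, h2]
    ring
  rw [hlast, add_zero]
  apply Finset.sum_congr rfl
  intro i hi
  have hi' := Finset.mem_range.1 hi
  rw [← Ac_step hq hi']
  have h1 : q ^ ((i + 1) * (m + 1)) = q ^ ((i + 1) * m) * q ^ (i + 1) := by
    rw [← pow_add]; congr 1
  have h2 : q ^ ((i + 1) * (m + 2)) = q ^ ((i + 1) * m) * q ^ (i + 1) * q ^ (i + 1) := by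
    rw [← pow_add, ← pow_add]; congr 1
  have h3 : q ^ (c + 1) = q ^ (c - i) * q ^ (i + 1) := by
    rw [← pow_add]
    congr 1
    omega
  have h4 : q ^ (c + 1 + i + 1) = q ^ (c - i) * q ^ (i + 1) * q ^ (i + 1) := by
    rw [← pow_add, ← pow_add]
    congr 1
    omega
  rw [h1, h2, h3, h4]
  ring

theorem rrec0 (h0 : Yf0Statement) {q : ℂ} (hq0 : q ≠ 0) (hq : ‖q‖ < 1) (c : ℕ) (hc : 1 ≤ c) :
    R q c 0 = (1 + (q ^ (c + 1)) ^ 2) * R q (c + 1) 0 - 2 * q ^ (c + 1) * R q (c + 1) 1 := by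
  have key := h0 q hq0 hq (c + 1) (by omega)
  rw [if_neg (by omega)] at key
  unfold R
  have : ∑ i ∈ Finset.range c, Ac q c i * q ^ ((i + 1) * 0)
      = (1 + (q ^ (c + 1)) ^ 2) * ∑ i ∈ Finset.range (c + 1), Ac q (c + 1) i * q ^ ((i + 1) * 0)
        - 2 * q ^ (c + 1) * ∑ i ∈ Finset.range (c + 1), Ac q (c + 1) i * q ^ ((i + 1) * 1)
        - q ^ (c + 1) * ∑ i ∈ Finset.range (c + 1), Ac q (c + 1) i *
          ((q ^ (i + 1))⁻¹ - q ^ (i + 1)) := by
    rw [Finset.mul_sum, Finset.mul_sum, Finset.mul_sum, ← Finset.sum_sub_distrib,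
      ← Finset.sum_sub_distrib, Finset.sum_range_succ]
    have hx : ∀ i : ℕ, q ^ (i + 1) ≠ 0 := fun i => pow_ne_zero _ hq0
    have hlast : (1 + (q ^ (c + 1)) ^ 2) * (Ac q (c + 1) c * q ^ ((c + 1) * 0))
        - 2 * q ^ (c + 1) * (Ac q (c + 1) c * q ^ ((c + 1) * 1))
        - q ^ (c + 1) * (Ac q (c + 1) c * ((q ^ (c + 1))⁻¹ - q ^ (c + 1))) = 0 := by
      have := hx c
      rw [mul_zero, pow_zero, mul_one]
      field_simp
      ring
    rw [hlast, add_zero]
    apply Finset.sum_congr rfl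
    intro i hi
    have hi' := Finset.mem_range.1 hi
    rw [← Ac_step hq hi']
    have h3 : q ^ (c + 1) = q ^ (c - i) * q ^ (i + 1) := by
      rw [← pow_add]
      congr 1
      omega
    have h4 : q ^ (c + 1 + i + 1) = q ^ (c - i) * q ^ (i + 1) * q ^ (i + 1) := by
      rw [← pow_add, ← pow_add]
      congr 1
      omega
    have := hx i
    rw [mul_zero, pow_zero, mul_one, h3, h4]
    field_simp
    ring
  rw [this, key]
  ring

/-- bounded solutions of the recursion vanish -/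
theorem rec_zero {p : ℂ} (hp0 : p ≠ 0) (hp : ‖p‖ < 1) (d : ℕ → ℂ) (B : ℝ) (hB : ∀ m, ‖d m‖ ≤ B)
    (h0 : (1 + p ^ 2) * d 0 - 2 * p * d 1 = 0)
    (h1 : ∀ m, (1 + p ^ 2) * d (m + 1) - p * (d m + d (m + 2)) = 0) : ∀ m, d m = 0 := by
  have he : ∀ m, d (m + 1) - p * d m = p * (d (m + 2) - p * d (m + 1)) := by
    intro m
    linear_combination h1 m
  have he2 : ∀ k m, d (m + 1) - p * d m = p ^ k * (d (m + k + 1) - p * d (m + k)) := by
    intro k
    induction k with
    | zero => intro m; simp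
    | succ k ih =>
      intro m
      rw [ih m, he (m + k), pow_succ]
      rw [show m + (k + 1) + 1 = m + k + 2 by ring, show m + (k + 1) = m + k + 1 by ring]
      ring
  have he3 : ∀ m, d (m + 1) = p * d m := by
    intro m
    rw [← sub_eq_zero, ← norm_eq_zero]
    apply le_antisymm _ (norm_nonneg _)
    have ht : Tendsto (fun k : ℕ => ‖p‖ ^ k * (B + B)) atTop (𝓝 (0 * (B + B))) :=
      (tendsto_pow_atTop_nhds_zero_of_lt_one (norm_nonneg _) hp).mul_const _
    rw [zero_mul] at ht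
    apply ge_of_tendsto' ht
    intro k
    rw [he2 k m, norm_mul, norm_pow]
    apply mul_le_mul_of_nonneg_left _ (by positivity)
    refine (norm_sub_le _ _).trans (add_le_add (hB _) ?_)
    rw [norm_mul]
    have := hB (m + k)
    nlinarith [norm_nonneg (d (m + k)), norm_nonneg p]
  have hd0 : d 0 = 0 := by
    rw [he3 0] at h0
    have h2 : (1 - p ^ 2) * d 0 = 0 := by linear_combination h0
    exact (mul_eq_zero.1 h2).resolve_left (one_sub_pow_ne hp two_ne_zero)
  intro m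
  induction m with
  | zero => exact hd0
  | succ m ih => rw [he3, ih, mul_zero]

theorem yf (h0 : Yf0Statement) : YfStatement := by
  intro q hq0 hq c m hc
  have key : ∀ c, 1 ≤ c → ∀ m, Yf q c m = R q c m := by
    intro c hc
    induction c, hc using Nat.le_induction with
    | base =>
      intro m
      unfold Yf R Ac
      rw [Finset.sum_range_one]
      simp only [hh1]
      have e1 : qp q (1 - (0 + 1)) = 1 := by
        rw [show 1 - (0 + 1) = 0 from rfl, qp_zero]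
      have e2 : qp q (1 + 0 + 1) = (1 - q) * (1 - q ^ 2) := by
        rw [show 1 + 0 + 1 = 1 + 1 from rfl, qp_succ, show (1 : ℕ) = 0 + 1 from rfl, qp_succ,
          qp_zero]
        ring
      rw [e1, e2]
      have h1 : (1 : ℂ) - q ≠ 0 := by
        have := one_sub_pow_ne hq one_ne_zero
        rwa [pow_one] at this
      have h2 : (1 : ℂ) - q ^ 2 ≠ 0 := one_sub_pow_ne hq two_ne_zero
      have h3 : ∀ r : ℕ, q ^ r * q ^ (r + m) = q ^ m * (q ^ 2) ^ r := by
        intro r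
        rw [← pow_mul, ← pow_add, ← pow_add]
        congr 1
        ring
      have h4 : ‖q ^ 2‖ < 1 := by
        rw [norm_pow]
        exact pow_lt_one₀ (norm_nonneg _) hq two_ne_zero
      rw [tsum_congr h3, tsum_mul_left, tsum_geometric_of_norm_lt_one h4]
      have e3 : (0 : ℕ) * (0 + 1) / 2 = 0 := by norm_num
      have e4 : (0 + 1) * m = m := by ring
      rw [e3, e4]
      field_simp
      ring
    | succ c hc ih =>
      have hp0 : q ^ (c + 1) ≠ 0 := pow_ne_zero _ hq0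
      have hp : ‖q ^ (c + 1)‖ < 1 := by
        rw [norm_pow]
        exact pow_lt_one₀ (norm_nonneg _) hq (by omega)
      obtain ⟨B, hB⟩ := (sum_hh hq (c + 1) 0).2
      have hR : ∀ m, ‖R q (c + 1) m‖ ≤ ∑ i ∈ Finset.range (c + 1), ‖Ac q (c + 1) i‖ := by
        intro m
        unfold R
        refine (norm_sum_le _ _).trans (Finset.sum_le_sum fun i _ => ?_)
        rw [norm_mul, norm_pow]
        have : ‖q‖ ^ ((i + 1) * m) ≤ 1 := pow_le_one₀ (norm_nonneg _) hq.le
        nlinarith [norm_nonneg (Ac q (c + 1) i)]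
      have hz := rec_zero hp0 hp (fun m => Yf q (c + 1) m - R q (c + 1) m)
        (B + ∑ i ∈ Finset.range (c + 1), ‖Ac q (c + 1) i‖)
        (fun m => (norm_sub_le _ _).trans (add_le_add (hB m) (hR m)))
        (by
          have a := yrec0 hq c
          have b := rrec0 h0 hq0 hq c hc
          have e := ih 0
          rw [a, b] at e
          linear_combination e)
        (by
          intro m
          have a := yrec hq c m
          have b := rrec hq c m
          have e := ih (m + 1)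
          rw [a, b] at e
          linear_combination e)
      intro m
      exact sub_eq_zero.1 (hz m)
  exact key c hc m

end Pool.Agent.UR.H80
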