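import Pool.Agent.Helper80_UR.Qbin

/-! # YF0: an identity of Lagrange type (helper80) -/

namespace Pool.Agent.UR.H80

open Pool.Agent.Helper21_UR

theorem two_tri (n : ℕ) : 2 * (n * (n + 1) / 2) = n * (n + 1) :=
  Nat.mul_div_cancel' (Nat.even_mul_succ_self n).two_dvd

theorem two_tri' (n : ℕ) : 2 * ((n + 1) * (n + 1 - 1) / 2) = n * (n + 1) := by
  rw [Nat.add_sub_cancel, mul_comm (n + 1) n]
  exact two_tri n

theorem neg_one_pow_add_self (n : ℕ) : (-1 : ℂ) ^ (n + n) = 1 := by
  rw [← two_mul, pow_mul]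
  simp

theorem yf0 (hQ : QbinStatement) : Yf0Statement := by
  intro q hq0 hq c hc
  by_cases hc1 : c = 1
  · subst hc1
    rw [if_pos rfl, Finset.sum_range_one]
    unfold Ac
    have e1 : qp q (1 - (0 + 1)) = 1 := by
      rw [show 1 - (0 + 1) = 0 from rfl, qp_zero]
    have e2 : qp q (1 + 0 + 1) = (1 - q) * (1 - q ^ 2) := by
      rw [show 1 + 0 + 1 = 1 + 1 from rfl, qp_succ, show (1 : ℕ) = 0 + 1 from rfl, qp_succ, qp_zero]
      ring
    rw [e1, e2]
    have h1 : (1 : ℂ) - q ≠ 0 := by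
      have := one_sub_pow_ne hq one_ne_zero
      rwa [pow_one] at this
    have h2 : (1 : ℂ) - q ^ 2 ≠ 0 := one_sub_pow_ne hq two_ne_zero
    have e3 : (0 : ℕ) * (0 + 1) / 2 = 0 := by norm_num
    rw [e3]
    field_simp
    ring
  · rw [if_neg hc1]
    have hc2 : 2 ≤ c := by omega
    obtain ⟨b, rfl⟩ : ∃ b, c = b + 2 := ⟨c - 2, by omega⟩
    set c := b + 2 with hcd
    -- the two products vanish
    set T : ℂ → ℕ → ℂ := fun x j => (-1) ^ j * q ^ (j * (j - 1) / 2) * x ^ j *
      (qp q (2 * c) / (qp q j * qp q (2 * c - j))) with hT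
    have hS1 : ∑ j ∈ Finset.range (2 * c + 1), T ((q ^ c)⁻¹) j = 0 := by
      rw [hT]
      simp only
      rw [← hQ q ((q ^ c)⁻¹) hq (2 * c)]
      apply Finset.prod_eq_zero (i := c) (Finset.mem_range.2 (by omega))
      rw [inv_mul_cancel₀ (pow_ne_zero _ hq0), sub_self]
    have hS2 : ∑ j ∈ Finset.range (2 * c + 1), T ((q ^ (c + 1))⁻¹) j = 0 := by
      rw [hT]
      simp only
      rw [← hQ q ((q ^ (c + 1))⁻¹) hq (2 * c)]
      apply Finset.prod_eq_zero (i := c + 1) (Finset.mem_range.2 (by omega))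
      rw [inv_mul_cancel₀ (pow_ne_zero _ hq0), sub_self]
    -- combine
    have hS : ∑ j ∈ Finset.range (2 * c + 1), ((-1) ^ c * q ^ (c * (c + 1) / 2)) *
        (T ((q ^ c)⁻¹) j - q ^ c * T ((q ^ (c + 1))⁻¹) j) = 0 := by
      rw [← Finset.mul_sum, Finset.sum_sub_distrib, ← Finset.mul_sum, hS1, hS2]
      simp
    -- the terms
    have hterm : ∀ j, ((-1) ^ c * q ^ (c * (c + 1) / 2)) *
        (T ((q ^ c)⁻¹) j - q ^ c * T ((q ^ (c + 1))⁻¹) j)
        = (-1) ^ (c + j) * (q ^ (c * (c + 1) / 2 + j * (j - 1) / 2) * (q ^ (c * j))⁻¹) *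
          (1 - q ^ c * (q ^ j)⁻¹) * (qp q (2 * c) / (qp q j * qp q (2 * c - j))) := by
      intro j
      rw [hT]
      simp only
      have e1 : ((q ^ c)⁻¹) ^ j = (q ^ (c * j))⁻¹ := by rw [inv_pow, ← pow_mul]
      have e2 : ((q ^ (c + 1))⁻¹) ^ j = (q ^ (c * j))⁻¹ * (q ^ j)⁻¹ := by
        rw [inv_pow, ← pow_mul, ← mul_inv, ← pow_add]
        congr 2
        ring
      rw [e1, e2, pow_add, pow_add]
      ring
    simp only [hterm] at hS
    -- split
    have hrange : 2 * c + 1 = c + 1 + c := by ring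
    rw [hrange, Finset.sum_range_add, Finset.sum_range_succ] at hS
    have hmid : (1 : ℂ) - q ^ c * (q ^ c)⁻¹ = 0 := by
      rw [mul_inv_cancel₀ (pow_ne_zero _ hq0), sub_self]
    rw [hmid, mul_zero, zero_mul, add_zero, ← Finset.sum_range_reflect] at hS
    rw [← Finset.sum_add_distrib] at hS
    have hfin : ∀ i ∈ Finset.range c, (-1 : ℂ) ^ (c + (c - 1 - i)) *
        (q ^ (c * (c + 1) / 2 + (c - 1 - i) * (c - 1 - i - 1) / 2) * (q ^ (c * (c - 1 - i)))⁻¹) *
          (1 - q ^ c * (q ^ (c - 1 - i))⁻¹) *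
          (qp q (2 * c) / (qp q (c - 1 - i) * qp q (2 * c - (c - 1 - i)))) +
        (-1 : ℂ) ^ (c + (c + 1 + i)) *
        (q ^ (c * (c + 1) / 2 + (c + 1 + i) * (c + 1 + i - 1) / 2) * (q ^ (c * (c + 1 + i)))⁻¹) *
          (1 - q ^ c * (q ^ (c + 1 + i))⁻¹) *
          (qp q (2 * c) / (qp q (c + 1 + i) * qp q (2 * c - (c + 1 + i))))
        = qp q (2 * c) * (Ac q c i * ((q ^ (i + 1))⁻¹ - q ^ (i + 1))) := by
      intro i hi
      have hi' := Finset.mem_range.1 hi
      obtain ⟨k, hk⟩ : ∃ k, c = i + 1 + k := ⟨c - (i + 1), by omega⟩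
      have f1 : c - 1 - i = k := by omega
      have f2 : 2 * c - k = c + i + 1 := by omega
      have f3 : c - (i + 1) = k := by omega
      have f4 : 2 * c - (c + 1 + i) = k := by omega
      have f5 : c + 1 + i = c + i + 1 := by omega
      rw [f1, f2, f4, f5]
      unfold Ac
      rw [f3]
      have g1 : c * (c + 1) / 2 + (c + i + 1) * (c + i + 1 - 1) / 2
          = i * (i + 1) / 2 + c * (c + i + 1) := by
        have h1 := two_tri c
        have h2 := two_tri' (c + i)
        have h3 := two_tri i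
        nlinarith
      have g2 : c * (c + 1) / 2 + k * (k - 1) / 2 = i * (i + 1) / 2 + (i + 1) + c * k := by
        rcases Nat.eq_zero_or_pos k with h | h
        · subst h
          have h1 := two_tri c
          have h3 := two_tri i
          have h4 : c = i + 1 := by omega
          rw [h4] at h1 ⊢
          simp only [Nat.zero_mul, Nat.zero_div, Nat.mul_zero, Nat.add_zero]
          nlinarith
        · obtain ⟨l, hl⟩ : ∃ l, k = l + 1 := ⟨k - 1, by omega⟩
          have h1 := two_tri c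
          have h2 := two_tri' l
          have h3 := two_tri i
          rw [hl]
          have h4 : c = i + 1 + (l + 1) := by omega
          rw [h4] at h1 ⊢
          nlinarith
      rw [g1, g2]
      have s1 : (-1 : ℂ) ^ (c + k) = (-1) ^ (i + 1) := by
        have : c + k = (k + k) + (i + 1) := by omega
        rw [this, pow_add, neg_one_pow_add_self, one_mul]
      have s2 : (-1 : ℂ) ^ (c + (c + i + 1)) = (-1) ^ (i + 1) := by
        have : c + (c + i + 1) = (c + c) + (i + 1) := by omega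
        rw [this, pow_add, neg_one_pow_add_self, one_mul]
      rw [s1, s2]
      have t1 : q ^ c * (q ^ k)⁻¹ = q ^ (i + 1) := by
        rw [hk, pow_add, mul_assoc, mul_inv_cancel₀ (pow_ne_zero _ hq0), mul_one]
      have t2 : q ^ c * (q ^ (c + i + 1))⁻¹ = (q ^ (i + 1))⁻¹ := by
        rw [add_assoc, pow_add q c (i + 1), mul_inv, ← mul_assoc,
          mul_inv_cancel₀ (pow_ne_zero _ hq0), one_mul]
      have t3 : q ^ (i * (i + 1) / 2 + (i + 1) + c * k) * (q ^ (c * k))⁻¹
          = q ^ (i * (i + 1) / 2) * q ^ (i + 1) := by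
        rw [pow_add _ _ (c * k), mul_assoc, mul_inv_cancel₀ (pow_ne_zero _ hq0), mul_one, pow_add]
      have t4 : q ^ (i * (i + 1) / 2 + c * (c + i + 1)) * (q ^ (c * (c + i + 1)))⁻¹
          = q ^ (i * (i + 1) / 2) := by
        rw [pow_add, mul_assoc, mul_inv_cancel₀ (pow_ne_zero _ hq0), mul_one]
      rw [t1, t2, t3, t4]
      have a1 := qp_ne hq (2 * c)
      have a2 := qp_ne hq k
      have a3 := qp_ne hq (c + i + 1)
      have a4 : q ^ (i + 1) ≠ 0 := pow_ne_zero _ hq0
      field_simp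
      ring
    rw [Finset.sum_congr rfl hfin, ← Finset.mul_sum] at hS
    exact (mul_eq_zero.1 hS).resolve_left (qp_ne hq _)

end Pool.Agent.UR.H80
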